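import Pool.Agent.Helper69.CK.Mrad
import Pool.Agent.Helper70.EK.E3Core
import Pool.Agent.Helper52.CK.Defs
set_option autoImplicit false
open Complex MeasureTheory Metric Set
open scoped Real ComplexConjugate

/-!
# Project CK: the multiplier term in the strip and in the disc, pointwise
-/

namespace Pool.Agent.Helper69.CK

open Pool.Agent.Helper39.Area Pool.Agent.Helper52.EK Pool.Agent.Helper52.CK
open Pool.Agent.Helper70.EK (low norm_ph ph_sub_one err_le norm_e0)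

/-- the multiplier `M` of the certificate and its bounded version `M'` -/
structure MOk (M M' : ℂ → ℂ) (Mb L ε : ℝ) : Prop where
  cont : Continuous M
  eq : ∀ m, ‖m + 3‖ ≤ 4 + ε → M m = M' m
  le : ∀ m, ‖M' m‖ ≤ Mb
  lip : ∀ m m', ‖M' m - M' m'‖ ≤ L * ‖m - m'‖

theorem MOk.cont' {M M' : ℂ → ℂ} {Mb L ε : ℝ} (h : MOk M M' Mb L ε) : Continuous M' := by
  have h1 : LipschitzWith (Real.toNNReal |L|) M' := by
    refine LipschitzWith.of_dist_le_mul fun m m' => ?_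
    rw [dist_eq_norm, dist_eq_norm, Real.coe_toNNReal _ (abs_nonneg L)]
    exact (h.lip m m').trans (mul_le_mul_of_nonneg_right (le_abs_self L) (norm_nonneg _))
  exact h1.continuous

theorem MOk.L0 {M M' : ℂ → ℂ} {Mb L ε : ℝ} (h : MOk M M' Mb L ε) : 0 ≤ L := by
  have h1 := h.lip 1 0
  have h2 : L * ‖(1:ℂ) - 0‖ = L := by simp
  rw [h2] at h1
  exact (norm_nonneg _).trans h1

theorem MOk.Mb0 {M M' : ℂ → ℂ} {Mb L ε : ℝ} (h : MOk M M' Mb L ε) : 0 ≤ Mb :=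
  (norm_nonneg _).trans (h.le 0)

/-- the multiplier as a function on the disc -/
noncomputable def Mh (M' : ℂ → ℂ) (β : ℂ → ℂ) (z : ℂ) : ℂ := (z / ‖z‖) ^ 2 * M' (mrad β z)

/-- the term of the multiplier in the strip -/
noncomputable def Mt (M : ℂ → ℂ) (q : ℝ) (X : ℂ → ℂ) (ξ η : ℝ) : ℝ :=
  (M (mX (X (pt ξ η)) (deriv X (pt ξ η)) (Real.sin η) (Real.cos η)) *
    e0 (Real.sin η) (Real.cos η) * (X (pt ξ η) ^ 2 - q)).re

theorem Mh_le {M M' : ℂ → ℂ} {Mb L ε : ℝ} (h : MOk M M' Mb L ε) (β : ℂ → ℂ) (z : ℂ) :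
    ‖Mh M' β z‖ ≤ Mb := by
  unfold Mh
  rw [norm_mul, norm_pow, norm_div, Complex.norm_real, norm_norm]
  have h1 : ‖z‖ / ‖z‖ ≤ 1 := div_self_le_one _
  have h2 : 0 ≤ ‖z‖ / ‖z‖ := by positivity
  have h3 := h.le (mrad β z)
  have h4 : (‖z‖ / ‖z‖) ^ 2 ≤ 1 := pow_le_one₀ h2 h1
  have h5 := norm_nonneg (M' (mrad β z))
  nlinarith

theorem Mh_cont {M M' : ℂ → ℂ} {Mb L ε : ℝ} (h : MOk M M' Mb L ε) {β : ℂ → ℂ} (hβ : Ext β) :
    ContinuousOn (Mh M' β) {z | 0 < ‖z‖ ∧ ‖z‖ < 1} := by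
  have h4 : ContinuousOn (fun z : ℂ => z / (‖z‖ : ℂ)) {z : ℂ | 0 < ‖z‖ ∧ ‖z‖ < 1} := by
    apply ContinuousOn.div continuousOn_id
    · exact (Complex.continuous_ofReal.comp continuous_norm).continuousOn
    · rintro z ⟨hz, _⟩
      exact Complex.ofReal_ne_zero.mpr hz.ne'
  exact (h4.pow 2).mul (h.cont'.comp_continuousOn (Pool.Agent.Helper70.EK.mrad_cont hβ))

/-! ### the phase -/

theorem unit_sub_I {w : ℂ} (h : I + w ≠ 0) : ‖(I + w) / (‖I + w‖ : ℂ) - I‖ ≤ 2 * ‖w‖ := by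
  have hr : 0 < ‖I + w‖ := norm_pos_iff.2 h
  have hrc : (‖I + w‖ : ℂ) ≠ 0 := by exact_mod_cast hr.ne'
  have e : (I + w) / (‖I + w‖ : ℂ) - I = (I + w) / (‖I + w‖ : ℂ) * ((1 - ‖I + w‖ : ℝ) : ℂ) + w := by
    push_cast
    field_simp
    ring
  rw [e]
  refine (norm_add_le _ _).trans ?_
  rw [norm_mul, norm_div, Complex.norm_real, Complex.norm_real, norm_norm, div_self hr.ne',
    one_mul, Real.norm_eq_abs]
  have h1 : |1 - ‖I + w‖| ≤ ‖w‖ := by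
    have h2 := abs_norm_sub_norm_le (I + w) I
    rw [Complex.norm_I, add_sub_cancel_left] at h2
    rw [abs_sub_comm]
    exact h2
  linarith

/-- the phase of the frame -/
theorem phase {ξ η : ℝ} (h0 : 0 < η) (h1 : η < π) (hξ : ξ ≤ -1) :
    ∃ p : ℂ, ‖p‖ = 1 ∧
      e0 (Real.sin η) (Real.cos η) * zd (pt ξ η) ^ 2 = (‖zd (pt ξ η)‖ : ℂ) ^ 2 * p ∧
      ‖p - (zf (pt ξ η) / ‖zf (pt ξ η)‖) ^ 2‖ ≤ 8 * Real.exp ξ := by
  have hξ0 : ξ < 0 := by linarith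
  have a1 := Pool.Agent.Helper97.EK.addI_ne (ξ := ξ) h0 h1
  have a2 := Pool.Agent.Helper97.EK.subI_ne (η := η) hξ0
  have hE0 := Complex.exp_ne_zero (pt ξ η)
  have hEn := Pool.Agent.Helper97.EK.norm_exp_pt ξ η
  have he := Pool.Agent.Helper97.EK.e0_eq ξ η
  have hE2 : conj (Complex.exp (pt ξ η)) * Complex.exp (pt ξ η) = ((Real.exp ξ : ℝ) : ℂ) ^ 2 := by
    rw [mul_comm, Complex.mul_conj', hEn]
  rw [← hEn]
  unfold zd zf
  generalize Complex.exp (pt ξ η) = E at *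
  have r1 : 0 < ‖I + E‖ := norm_pos_iff.2 a1
  have r2 : 0 < ‖I - E‖ := norm_pos_iff.2 a2
  have c1 : (‖I + E‖ : ℂ) ≠ 0 := by exact_mod_cast r1.ne'
  have c2 : (‖I - E‖ : ℂ) ≠ 0 := by exact_mod_cast r2.ne'
  obtain ⟨u, hu⟩ : ∃ u : ℂ, u = (I + E) / (‖I + E‖ : ℂ) := ⟨_, rfl⟩
  obtain ⟨v, hv⟩ : ∃ v : ℂ, v = (I + -E) / (‖I + -E‖ : ℂ) := ⟨_, rfl⟩
  have u1 : ‖u‖ = 1 := by
    rw [hu, norm_div, Complex.norm_real, norm_norm, div_self r1.ne']
  have v1 : ‖v‖ = 1 := by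
    rw [hv, norm_div, Complex.norm_real, norm_norm, div_self]
    rw [← sub_eq_add_neg]
    exact r2.ne'
  have u0 : u ≠ 0 := by
    rw [← norm_pos_iff, u1]
    exact one_pos
  have k1 : ‖u - I‖ ≤ 2 * ‖E‖ := by
    rw [hu]
    exact unit_sub_I a1
  have k2 : ‖v - I‖ ≤ 2 * ‖E‖ := by
    have := unit_sub_I (w := -E) (by rwa [← sub_eq_add_neg])
    rw [norm_neg] at this
    rw [hv]
    exact this
  refine ⟨(u ^ 4)⁻¹, by rw [norm_inv, norm_pow, u1, one_pow, inv_one], ?_, ?_⟩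
  · rw [he, norm_div, norm_pow, norm_mul, norm_mul, norm_neg, Complex.norm_I, hEn]
    have e1 : E + I = (‖I + E‖ : ℂ) * u := by
      rw [hu]
      field_simp
      ring
    have e2 : ‖E + I‖ = ‖I + E‖ := by rw [add_comm]
    rw [e2, e1]
    have n2 : ‖(2:ℂ)‖ = 2 := by simp
    rw [n2]
    push_cast
    have e3 : -(conj E / E) * (-2 * I * E / ((‖I + E‖ : ℂ) * u) ^ 2) ^ 2 =
        4 * (conj E * E) / ((‖I + E‖ : ℂ) ^ 4 * u ^ 4) := by
      field_simp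
      linear_combination (-4 * conj E) * Complex.I_sq
    rw [e3, hE2]
    push_cast
    field_simp
    ring
  · have e1 : (I - E) / (I + E) / (‖(I - E) / (I + E)‖ : ℂ) = v / u := by
      rw [hu, hv, norm_div, ← sub_eq_add_neg]
      push_cast
      field_simp
    rw [e1]
    have e2 : (u ^ 4)⁻¹ - (v / u) ^ 2 = (u ^ 2)⁻¹ * ((u ^ 2)⁻¹ * (1 + u ^ 2) - (1 + v ^ 2)) := by
      field_simp
      ring
    rw [e2, norm_mul, norm_inv, norm_pow, u1, one_pow, inv_one, one_mul]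
    refine (norm_sub_le _ _).trans ?_
    rw [norm_mul, norm_inv, norm_pow, u1, one_pow, inv_one, one_mul]
    have k3 : ∀ x : ℂ, ‖x‖ = 1 → ‖x - I‖ ≤ 2 * ‖E‖ → ‖1 + x ^ 2‖ ≤ 4 * ‖E‖ := by
      intro x hx hxI
      have e3 : 1 + x ^ 2 = (x - I) * (x + I) := by linear_combination Complex.I_sq
      rw [e3, norm_mul]
      have k4 : ‖x + I‖ ≤ 2 := by
        have := norm_add_le x I
        rw [hx, Complex.norm_I] at this
        linarith
      nlinarith [norm_nonneg (x - I), norm_nonneg (x + I), norm_nonneg E]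
    have := k3 u u1 k1
    have := k3 v v1 k2
    linarith

/-! ### the comparison of `m` -/

theorem mX_close {β : ℂ → ℂ} (h : Ext β) {a : ℝ} (ha : 0 < a) (ha1 : a < 1) {ξ η : ℝ} (h0 : 0 < η)
    (h1 : η < π) (hξ : ξ ≤ -1) (hξ1 : Real.log (tau a) < ξ) (hz : 1 / 2 ≤ ‖zf (pt ξ η)‖) :
    ‖mX (Xf β a (pt ξ η)) (deriv (Xf β a) (pt ξ η)) (Real.sin η) (Real.cos η) -
      mrad β (zf (pt ξ η))‖ ≤ 164 * Real.exp ξ := by
  have hξ0 : ξ < 0 := by linarith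
  have hEn := Pool.Agent.Helper97.EK.norm_exp_pt ξ η
  have hE : ‖Complex.exp (pt ξ η)‖ ≤ 1 / 2 := by
    rw [hEn]
    have h8 : Real.exp ξ ≤ Real.exp (-1) := Real.exp_le_exp.mpr hξ
    have h9 : Real.exp (-1) < 0.3678794412 := Real.exp_neg_one_lt_d9
    linarith
  have k0 := Pool.Agent.Helper97.EK.zf_mem (ξ := ξ) h0 h1
  rw [mem_ball_zero_iff] at k0
  have k1 := mrad_range h k0 hz
  have k2 := Pool.Agent.Helper97.EK.E3a2 h ha ha1 h0 h1 hξ0 hξ1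
  rw [add_assoc] at k2
  have n1 := norm_ph hE
  have n2 := ph_sub_one hE
  have n3 := err_le hE
  rw [hEn] at n2 n3
  change mrad β (zf (pt ξ η)) = Pool.Agent.Helper70.EK.ph (Complex.exp (pt ξ η)) * _ at k2
  generalize Pool.Agent.Helper70.EK.ph (Complex.exp (pt ξ η)) = p at *
  generalize (2 * I * (Complex.exp (pt ξ η)).im / (Complex.exp (pt ξ η) + I) +
    4 * I * (Complex.exp (pt ξ η)).im / (Complex.exp (pt ξ η) - I) : ℂ) = e at *
  generalize mX (Xf β a (pt ξ η)) (deriv (Xf β a) (pt ξ η)) (Real.sin η) (Real.cos η) = m at *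
  have k3 : ‖m + e‖ ≤ 19 / 2 := by
    have k4 : ‖mrad β (zf (pt ξ η))‖ = ‖m + e‖ := by rw [k2, norm_mul, n1, one_mul]
    rw [← k4]
    have k5 := norm_sub_le (mrad β (zf (pt ξ η)) + 3) 3
    rw [add_sub_cancel_right] at k5
    have : ‖(3:ℂ)‖ = 3 := by simp
    rw [this] at k5
    linarith
  have e1 : m - mrad β (zf (pt ξ η)) = -((p - 1) * (m + e)) - e := by
    rw [k2]
    ring
  rw [e1]
  refine (norm_sub_le _ _).trans ?_
  rw [norm_neg, norm_mul]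
  have := mul_le_mul n2 k3 (norm_nonneg _) (by positivity)
  linarith

/-! ### the comparison of the integrands -/

theorem zd_zf {ω : ℂ} (h : I + Complex.exp ω ≠ 0) : zd ω = -(1 - zf ω ^ 2) / 2 := by
  unfold zd zf
  have h' : Complex.exp ω + I ≠ 0 := by rwa [add_comm]
  field_simp
  ring

theorem omp_zero (z : ℂ) : omp 0 z = 2 / (1 - z ^ 2) := by
  unfold omp
  simp

/-- `X² - q` in the coordinates of the disc -/
theorem X_sq {β : ℂ → ℂ} {a q : ℝ} {ω : ℂ} (h : I + Complex.exp ω ≠ 0) :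
    Xf β a ω ^ 2 - q = zd ω ^ 2 * (kA β a (zf ω) - q * omp 0 (zf ω) ^ 2) := by
  have hzd : zd ω ≠ 0 := by
    unfold zd
    refine div_ne_zero (mul_ne_zero (mul_ne_zero (by norm_num) Complex.I_ne_zero)
      (Complex.exp_ne_zero _)) (pow_ne_zero 2 (by rwa [add_comm]))
  have e1 : zd ω ^ 2 * omp 0 (zf ω) ^ 2 = 1 := by
    have e2 := zd_zf h
    have h1 : (1 - zf ω ^ 2) ≠ 0 := by
      intro h0
      rw [h0] at e2
      simp at e2
      exact hzd e2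
    rw [omp_zero, e2]
    field_simp
  have e3 : Xf β a ω ^ 2 = zd ω ^ 2 * kA β a (zf ω) := by
    unfold Xf kA
    ring
  rw [e3, mul_sub, ← mul_assoc, mul_comm (zd ω ^ 2) (q:ℂ), mul_assoc, e1, mul_one]

theorem norm_sq_sub (x : ℂ) (q : ℝ) :
    ‖x ^ 2 - q‖ ≤ (2 + |1 - q|) * (1 + ‖x - 1‖ ^ 2) := by
  have e : x ^ 2 - q = (x - 1) ^ 2 + 2 * (x - 1) + ((1 - q : ℝ) : ℂ) := by
    push_cast
    ring
  rw [e]
  refine (norm_add_le _ _).trans ((add_le_add (norm_add_le _ _) le_rfl).trans ?_)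
  rw [norm_pow, norm_mul, Complex.norm_real, Real.norm_eq_abs]
  have : ‖(2:ℂ)‖ = 2 := by simp
  rw [this]
  nlinarith [sq_nonneg (‖x - 1‖ - 1), abs_nonneg (1 - q), mul_nonneg (abs_nonneg (1 - q))
    (sq_nonneg ‖x - 1‖)]

/-- the comparison of the integrands -/
theorem cmp {M M' : ℂ → ℂ} {Mb L ε : ℝ} (hM : MOk M M' Mb L ε) (q : ℝ) {β : ℂ → ℂ} (h : Ext β)
    {a : ℝ} (ha : 0 < a) (ha1 : a < 1) {ξ η : ℝ} (h0 : 0 < η) (h1 : η < π)
    (hξ1 : Real.log (tau a) < ξ) (hξ : 8 * Real.exp ξ ≤ 1) (hε : 184 * Real.exp ξ ≤ ε) :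
    |Mt M q (Xf β a) ξ η - ‖zd (pt ξ η)‖ ^ 2 * (Mh M' β (zf (pt ξ η)) *
      (kA β a (zf (pt ξ η)) - q * omp 0 (zf (pt ξ η)) ^ 2)).re| ≤
      (164 * L + 8 * Mb) * (2 + |1 - q|) * (Real.exp ξ * (1 + ‖Xf β a (pt ξ η) - 1‖ ^ 2)) := by
  have hx1 : ξ ≤ -1 := by
    by_contra h2
    push Not at h2
    have h3 : Real.exp (-1) < Real.exp ξ := Real.exp_lt_exp.2 h2
    have h4 : (0.36787944116:ℝ) < Real.exp (-1) := Real.exp_neg_one_gt_d9
    linarith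
  have a1 := Pool.Agent.Helper97.EK.addI_ne (ξ := ξ) h0 h1
  obtain ⟨p, p1, p2, p3⟩ := phase h0 h1 hx1
  have k0 := Pool.Agent.Helper97.EK.zf_mem (ξ := ξ) h0 h1
  rw [mem_ball_zero_iff] at k0
  -- the point is near the circle
  have hEn := Pool.Agent.Helper97.EK.norm_exp_pt ξ η
  have k1 : 1 - ‖zf (pt ξ η)‖ ≤ 4 * Real.exp ξ := by
    have e1 : 1 - zf (pt ξ η) = 2 * Complex.exp (pt ξ η) / (I + Complex.exp (pt ξ η)) := by
      unfold zf
      field_simp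
      ring
    have h2 : ‖(1:ℂ)‖ - ‖zf (pt ξ η)‖ ≤ ‖1 - zf (pt ξ η)‖ := norm_sub_norm_le _ _
    rw [norm_one, e1, norm_div, norm_mul, hEn] at h2
    have h3 := (low (Complex.exp (pt ξ η)) (by rw [hEn]; linarith)).1
    have : ‖(2:ℂ)‖ = 2 := by simp
    rw [this] at h2
    refine h2.trans ?_
    rw [div_le_iff₀ (by linarith)]
    nlinarith [Real.exp_pos ξ]
  have k2 : 1 / 2 ≤ ‖zf (pt ξ η)‖ := by linarith
  have k3 := mX_close h ha ha1 h0 h1 hx1 hξ1 k2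
  have k4 := mrad_range h k0 k2
  have k5 : ‖mX (Xf β a (pt ξ η)) (deriv (Xf β a) (pt ξ η)) (Real.sin η) (Real.cos η) + 3‖ ≤
      4 + ε := by
    have e1 : mX (Xf β a (pt ξ η)) (deriv (Xf β a) (pt ξ η)) (Real.sin η) (Real.cos η) + 3 =
        (mX (Xf β a (pt ξ η)) (deriv (Xf β a) (pt ξ η)) (Real.sin η) (Real.cos η) -
        mrad β (zf (pt ξ η))) + (mrad β (zf (pt ξ η)) + 3) := by ring
    rw [e1]
    refine (norm_add_le _ _).trans ?_
    linarith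
  have k6 := hM.eq _ k5
  unfold Mt
  rw [k6, mul_assoc, X_sq a1, ← mul_assoc (e0 (Real.sin η) (Real.cos η)), p2]
  have k7 : ‖(‖zd (pt ξ η)‖ : ℂ) ^ 2 * (kA β a (zf (pt ξ η)) - q * omp 0 (zf (pt ξ η)) ^ 2)‖ ≤
      (2 + |1 - q|) * (1 + ‖Xf β a (pt ξ η) - 1‖ ^ 2) := by
    have h2 := norm_sq_sub (Xf β a (pt ξ η)) q
    rw [X_sq a1] at h2
    rw [norm_mul, norm_pow] at h2 ⊢
    rwa [Complex.norm_real, norm_norm]
  set K := kA β a (zf (pt ξ η)) - q * omp 0 (zf (pt ξ η)) ^ 2 with hK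
  clear_value K
  have k8 := hM.lip (mX (Xf β a (pt ξ η)) (deriv (Xf β a) (pt ξ η)) (Real.sin η) (Real.cos η))
    (mrad β (zf (pt ξ η)))
  generalize mX (Xf β a (pt ξ η)) (deriv (Xf β a) (pt ξ η)) (Real.sin η) (Real.cos η) = m at *
  have k9 := hM.le (mrad β (zf (pt ξ η)))
  unfold Mh
  generalize mrad β (zf (pt ξ η)) = m' at *
  have e1 : (M' m * ((‖zd (pt ξ η)‖ : ℂ) ^ 2 * p * K)).re -
      ‖zd (pt ξ η)‖ ^ 2 * ((zf (pt ξ η) / ‖zf (pt ξ η)‖) ^ 2 * M' m' * K).re =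
      (((M' m - M' m') * p + M' m' * (p - (zf (pt ξ η) / ‖zf (pt ξ η)‖) ^ 2)) *
        ((‖zd (pt ξ η)‖ : ℂ) ^ 2 * K)).re := by
    have e2 : ‖zd (pt ξ η)‖ ^ 2 * ((zf (pt ξ η) / ‖zf (pt ξ η)‖) ^ 2 * M' m' * K).re =
        (((‖zd (pt ξ η)‖ ^ 2 : ℝ) : ℂ) * ((zf (pt ξ η) / ‖zf (pt ξ η)‖) ^ 2 * M' m' * K)).re := by
      rw [Complex.re_ofReal_mul]
    rw [e2, ← Complex.sub_re]
    congr 1
    push_cast
    ring
  rw [e1]
  refine (abs_re_le_norm _).trans ?_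
  rw [norm_mul]
  have hL := hM.L0
  have hMb := hM.Mb0
  have hexp := Real.exp_pos ξ
  have k10 : ‖(M' m - M' m') * p + M' m' * (p - (zf (pt ξ η) / ‖zf (pt ξ η)‖) ^ 2)‖ ≤
      (164 * L + 8 * Mb) * Real.exp ξ := by
    refine (norm_add_le _ _).trans ?_
    rw [norm_mul, norm_mul, p1, mul_one]
    have b1 : ‖M' m - M' m'‖ ≤ L * (164 * Real.exp ξ) :=
      k8.trans (mul_le_mul_of_nonneg_left k3 hL)
    have b2 : ‖M' m'‖ * ‖p - (zf (pt ξ η) / ‖zf (pt ξ η)‖) ^ 2‖ ≤ Mb * (8 * Real.exp ξ) :=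
      mul_le_mul k9 p3 (norm_nonneg _) hMb
    linarith
  have k11 := mul_le_mul k10 k7 (norm_nonneg _) (by positivity)
  refine k11.trans (le_of_eq ?_)
  ring

end Pool.Agent.Helper69.CK
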