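import Pool.Agent.Helper69.CK.Frame
import Pool.Agent.Helper67.EK.E1c
import Pool.Agent.Helper86.EK.E1b
set_option autoImplicit false
open Complex MeasureTheory Metric Set
open scoped Real ComplexConjugate

/-!
# Project CK: the multiplier term, from the strip to the disc
-/

namespace Pool.Agent.Helper69.CK

open Pool.Agent.Helper39.Area Pool.Agent.Helper52.EK Pool.Agent.Helper52.CK

/-- the open rectangle -/
def SR (x₁ x₂ : ℝ) : Set ℂ := Ioo x₁ x₂ ×ℂ Ioo 0 π

theorem SR_sub (x₁ x₂ : ℝ) : SR x₁ x₂ ⊆ Rect x₁ x₂ := fun _ hω =>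
  ⟨Ioo_subset_Icc_self hω.1, Ioo_subset_Icc_self hω.2⟩

theorem SR_open (x₁ x₂ : ℝ) : IsOpen (SR x₁ x₂) := isOpen_Ioo.reProdIm isOpen_Ioo

theorem inj_zf {x₁ x₂ : ℝ} : InjOn zf (SR x₁ x₂) := by
  intro ω hω ω' hω' he
  have e1 := Pool.Agent.Helper86.EK.exp_ne_neg_I (SR_sub _ _ hω)
  have e2 := Pool.Agent.Helper86.EK.exp_ne_neg_I (SR_sub _ _ hω')
  rw [zf, zf, div_eq_div_iff e1 e2] at he
  have e3 : Complex.exp ω = Complex.exp ω' := by
    have : 2 * I * (Complex.exp ω - Complex.exp ω') = 0 := by linear_combination -he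
    have h4 : (2:ℂ) * I ≠ 0 := by simp
    exact sub_eq_zero.mp ((mul_eq_zero.mp this).resolve_left h4)
  obtain ⟨n, hn⟩ := Complex.exp_eq_exp_iff_exists_int.mp e3
  have h5 := congrArg Complex.im hn
  simp only [Complex.add_im, Complex.mul_im, Complex.intCast_re, Complex.intCast_im,
    Complex.mul_re, Complex.re_ofNat, Complex.im_ofNat, Complex.ofReal_re, Complex.ofReal_im,
    Complex.I_re, Complex.I_im, mul_zero, mul_one, sub_zero, zero_mul, add_zero] at h5
  have hπ := Real.pi_pos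
  have h6a : 0 < ω.im := hω.2.1
  have h6b : ω.im < π := hω.2.2
  have h7a : 0 < ω'.im := hω'.2.1
  have h7b : ω'.im < π := hω'.2.2
  have h8 : n = 0 := by
    have h9 : (n:ℝ) < 1 := by
      by_contra h10
      push Not at h10
      nlinarith
    have h11 : (-1:ℝ) < n := by
      by_contra h10
      push Not at h10
      nlinarith
    have h9' : n < 1 := by exact_mod_cast h9
    have h11' : -1 < n := by exact_mod_cast h11
    omega
  rw [hn, h8]
  simp

/-- the points of the disc in the coordinate of the strip -/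
theorem mem_image_zf {x₁ x₂ : ℝ} {z : ℂ} (h1 : ‖z‖ < 1) (h2 : Real.exp x₁ < ‖1 - z‖ / ‖1 + z‖)
    (h3 : ‖1 - z‖ / ‖1 + z‖ < Real.exp x₂) : z ∈ zf '' SR x₁ x₂ := by
  have hp : 1 + z ≠ 0 := by
    intro h0
    have : z = -1 := by linear_combination h0
    rw [this] at h1
    simp at h1
  have hE : I * (1 - z) / (1 + z) ≠ 0 := by
    refine div_ne_zero (mul_ne_zero Complex.I_ne_zero fun h0 => ?_) hp
    have : z = 1 := by linear_combination -h0
    rw [this] at h1
    simp at h1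
  have him : 0 < (I * (1 - z) / (1 + z)).im := by
    have e1 : I * (1 - z) / (1 + z) = I * (1 - z) * conj (1 + z) / (Complex.normSq (1 + z) : ℂ) := by
      rw [Complex.normSq_eq_conj_mul_self]
      have : conj (1 + z) ≠ 0 := (map_ne_zero _).2 hp
      field_simp
    rw [e1, Complex.div_ofReal_im]
    refine div_pos ?_ (Complex.normSq_pos.2 hp)
    have h4 : ‖z‖ ^ 2 < 1 := pow_lt_one₀ (norm_nonneg _) h1 two_ne_zero
    rw [← Complex.normSq_eq_norm_sq, Complex.normSq_apply] at h4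
    simp only [mul_im, mul_re, I_re, I_im, sub_re, sub_im, one_re, one_im, conj_re, conj_im,
      add_re, add_im]
    nlinarith
  refine ⟨Complex.log (I * (1 - z) / (1 + z)), ⟨⟨?_, ?_⟩, ?_, ?_⟩, ?_⟩
  · change x₁ < (Complex.log _).re
    rw [Complex.log_re, norm_div, norm_mul, Complex.norm_I, one_mul]
    rw [← Real.log_exp x₁]
    exact Real.log_lt_log (Real.exp_pos _) h2
  · change (Complex.log _).re < x₂
    rw [Complex.log_re, norm_div, norm_mul, Complex.norm_I, one_mul]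
    rw [← Real.log_exp x₂]
    exact Real.log_lt_log ((Real.exp_pos _).trans h2) h3
  · change 0 < (Complex.log _).im
    rw [Complex.log_im]
    have h5 : 0 ≤ Complex.arg (I * (1 - z) / (1 + z)) := Complex.arg_nonneg_iff.2 him.le
    refine lt_of_le_of_ne h5 fun h6 => ?_
    have h7 := Complex.arg_eq_zero_iff.1 h6.symm
    linarith [h7.2]
  · change (Complex.log _).im < π
    rw [Complex.log_im]
    refine lt_of_le_of_ne (Complex.arg_le_pi _) fun h6 => ?_
    have h7 := Complex.arg_eq_pi_iff.1 h6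
    linarith [h7.2]
  · unfold zf
    rw [Complex.exp_log hE]
    field_simp
    ring

/-- change of variables for functions supported in the image of the rectangle -/
theorem chg {x₁ x₂ : ℝ} {g : ℂ → ℝ} (hg : ∀ z, z ∉ zf '' SR x₁ x₂ → g z = 0) :
    ∫ z, g z = ∫ ω in SR x₁ x₂, ‖zd ω‖ ^ 2 * g (zf ω) := by
  have hd : ∀ ω ∈ SR x₁ x₂, HasFDerivWithinAt zf (zd ω • (1 : ℂ →L[ℝ] ℂ)) (SR x₁ x₂) ω :=
    fun ω hω => (Pool.Agent.Helper86.EK.hasDerivAt_zf (Pool.Agent.Helper86.EK.exp_ne_neg_I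
      (SR_sub _ _ hω))).complexToReal_fderiv.hasFDerivWithinAt
  rw [← setIntegral_eq_integral_of_forall_compl_eq_zero hg,
    integral_image_eq_integral_abs_det_fderiv_smul volume (SR_open x₁ x₂).measurableSet hd inj_zf]
  simp only [Pool.Agent.Helper86.EK.det_cmul, smul_eq_mul]

/-- the strip integral of a difference -/
theorem int_diff {x₁ x₂ : ℝ} {F₁ F₂ E : ℂ → ℝ} (h1 : ContinuousOn F₁ (Rect x₁ x₂))
    (h2 : ContinuousOn F₂ (SR x₁ x₂)) (hE : ContinuousOn E (Rect x₁ x₂))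
    (h : ∀ ω ∈ SR x₁ x₂, |F₁ ω - F₂ ω| ≤ E ω) :
    |(∫ ω in SR x₁ x₂, F₁ ω) - ∫ ω in SR x₁ x₂, F₂ ω| ≤ ∫ ω in SR x₁ x₂, E ω := by
  have hK : IsCompact (Rect x₁ x₂) := isCompact_Icc.reProdIm isCompact_Icc
  have i1 : IntegrableOn F₁ (SR x₁ x₂) := (h1.integrableOn_compact hK).mono_set (SR_sub _ _)
  have iE : IntegrableOn E (SR x₁ x₂) := (hE.integrableOn_compact hK).mono_set (SR_sub _ _)
  have hm := (SR_open x₁ x₂).measurableSet
  have i2 : IntegrableOn F₂ (SR x₁ x₂) := by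
    refine Integrable.mono' (i1.abs.add iE) (h2.aestronglyMeasurable hm) ?_
    rw [ae_restrict_iff' hm]
    refine Filter.Eventually.of_forall fun ω hω => ?_
    have h3 := h ω hω
    rw [Real.norm_eq_abs]
    have h4 := abs_sub_abs_le_abs_sub (F₂ ω) (F₁ ω)
    rw [abs_sub_comm (F₂ ω)] at h4
    simp only [Pi.add_apply]
    linarith
  rw [← integral_sub i1 i2, ← Real.norm_eq_abs]
  refine norm_integral_le_of_norm_le iE ?_
  rw [ae_restrict_iff' hm]
  exact Filter.Eventually.of_forall fun ω hω => by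
    rw [Real.norm_eq_abs]
    exact h ω hω

/-- **the multiplier term, from the strip to the disc** -/
theorem conv {M M' : ℂ → ℂ} {Mb L ε : ℝ} (hM : MOk M M' Mb L ε) (q : ℝ) :
    ∃ C : ℝ, 0 ≤ C ∧ ∀ (β : ℂ → ℂ) (R a A x₁ : ℝ) (W : ℂ → ℝ), ExtR β R → 0 < a → a < 1 →
      Real.log (tau a) < x₁ → x₁ ≤ -1 → 8 * Real.exp (-A) ≤ 1 → 184 * Real.exp (-A) ≤ ε →
      Continuous W → (∀ z, 0 ≤ W z) → (∀ z, W z ≤ 1) →
      (∀ z, W z ≠ 0 → ‖z‖ < 1 ∧ Real.exp x₁ < ‖1 - z‖ / ‖1 + z‖ ∧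
        ‖1 - z‖ / ‖1 + z‖ ≤ Real.exp (-A)) →
      |II x₁ (-1) (fun ξ η => W (zf (pt ξ η)) * Mt M q (Xf β a) ξ η) -
        ∫ z0 : ℂ, W z0 * (Mh M' β z0 * (kA β a z0 - q * omp 0 z0 ^ 2)).re| ≤
        C * (1 + Real.exp (-A) * II x₁ (-1) (fun ξ η => ‖Xf β a (pt ξ η) - 1‖ ^ 2)) := by
  obtain ⟨C₀, hC₀⟩ : ∃ C₀ : ℝ, C₀ = (164 * L + 8 * Mb) * (2 + |1 - q|) := ⟨_, rfl⟩
  have hL := hM.L0
  have hMb := hM.Mb0
  have hC0 : 0 ≤ C₀ := by rw [hC₀]; positivity
  refine ⟨C₀ * (π + 1), mul_nonneg hC0 (by positivity), ?_⟩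
  intro β R a A x₁ W hβ ha ha1 hx1 hx hA1 hA2 hWc hW0 hW1 hWs
  have hxm : (-1:ℝ) < 0 := by norm_num
  have hX : NiceX (Xf β a) x₁ (-1) := Pool.Agent.Helper67.EK.E1c hβ ha ha1 hx1 hxm
  have hexpA := Real.exp_pos (-A)
  have hAm : Real.exp (-A) < Real.exp (-1) := by
    have h4 : (0.36787944116:ℝ) < Real.exp (-1) := Real.exp_neg_one_gt_d9
    linarith
  have himg : ∀ z, W z ≠ 0 → z ∈ zf '' SR x₁ (-1) := fun z hz => by
    obtain ⟨h1, h2, h3⟩ := hWs z hz
    exact mem_image_zf h1 h2 (h3.trans_lt hAm)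
  -- the support in the strip
  have hsup : ∀ ω ∈ SR x₁ (-1), W (zf ω) ≠ 0 → Real.exp ω.re ≤ Real.exp (-A) := by
    intro ω hω h0
    obtain ⟨_, _, h3⟩ := hWs _ h0
    have e1 := Pool.Agent.Helper86.EK.exp_ne_neg_I (SR_sub _ _ hω)
    have e2 : ‖1 - zf ω‖ / ‖1 + zf ω‖ = Real.exp ω.re := by
      rw [← norm_div]
      have e3 : (1 - zf ω) / (1 + zf ω) = Complex.exp ω / I := by
        have h5 : 1 - zf ω = 2 * Complex.exp ω / (I + Complex.exp ω) := by
          unfold zf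
          field_simp
          ring
        have h6 : 1 + zf ω = 2 * I / (I + Complex.exp ω) := by
          unfold zf
          field_simp
          ring
        rw [h5, h6]
        field_simp
      rw [e3, norm_div, Complex.norm_I, div_one, Complex.norm_exp]
    rwa [e2] at h3
  -- continuity
  have hzc : ContinuousOn zf (Rect x₁ (-1)) := fun ω hω =>
    (Pool.Agent.Helper86.EK.hasDerivAt_zf
      (Pool.Agent.Helper86.EK.exp_ne_neg_I hω)).continuousAt.continuousWithinAt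
  have cX := hX.an.continuousOn
  have cY := hX.an.deriv.continuousOn
  have ce : Continuous fun ω : ℂ => e0 (Real.sin ω.im) (Real.cos ω.im) := by
    unfold e0
    fun_prop
  have cm : ContinuousOn (fun ω : ℂ => mX (Xf β a ω) (deriv (Xf β a) ω) (Real.sin ω.im)
      (Real.cos ω.im)) (Rect x₁ (-1)) := by
    unfold mX
    exact ((continuousOn_const.add ce.continuousOn).mul
      (((continuousOn_const.mul cX).sub continuousOn_const).add (cY.div cX hX.ne))).sub
      continuousOn_const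
  have c1 : ContinuousOn (fun ω : ℂ => W (zf ω) * (M (mX (Xf β a ω) (deriv (Xf β a) ω)
      (Real.sin ω.im) (Real.cos ω.im)) * e0 (Real.sin ω.im) (Real.cos ω.im) *
      (Xf β a ω ^ 2 - q)).re) (Rect x₁ (-1)) := by
    refine (hWc.comp_continuousOn hzc).mul (Complex.continuous_re.comp_continuousOn ?_)
    exact ((hM.cont.comp_continuousOn cm).mul ce.continuousOn).mul
      ((cX.pow 2).sub continuousOn_const)
  have cE : ContinuousOn (fun ω : ℂ => C₀ * (Real.exp ω.re + Real.exp (-A) *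
      ‖Xf β a ω - 1‖ ^ 2)) (Rect x₁ (-1)) := by
    refine continuousOn_const.mul (ContinuousOn.add (by fun_prop)
      (continuousOn_const.mul ((cX.sub continuousOn_const).norm.pow 2)))
  have hz1 : ∀ ω ∈ SR x₁ (-1), 0 < ‖zf ω‖ ∧ ‖zf ω‖ < 1 := by
    intro ω hω
    refine ⟨norm_pos_iff.2 (Pool.Agent.Helper86.EK.zf_ne_zero hxm (SR_sub _ _ hω)), ?_⟩
    apply Pool.Agent.Helper86.EK.norm_zf_lt
    rw [Complex.exp_im]
    exact mul_pos (Real.exp_pos _) (Real.sin_pos_of_pos_of_lt_pi hω.2.1 hω.2.2)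
  have hzd0 : ∀ ω ∈ Rect x₁ (-1), zd ω ≠ 0 := by
    intro ω hω
    have h1 := Pool.Agent.Helper86.EK.exp_ne_neg_I hω
    unfold zd
    refine div_ne_zero (mul_ne_zero (mul_ne_zero (by norm_num) Complex.I_ne_zero)
      (Complex.exp_ne_zero _)) (pow_ne_zero 2 (by rwa [add_comm]))
  have czd : ContinuousOn zd (Rect x₁ (-1)) := by
    unfold zd
    apply ContinuousOn.div (by fun_prop) (by fun_prop)
    intro ω hω
    apply pow_ne_zero
    rw [add_comm]
    exact Pool.Agent.Helper86.EK.exp_ne_neg_I hω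
  have c2 : ContinuousOn (fun ω : ℂ => ‖zd ω‖ ^ 2 * (W (zf ω) * (Mh M' β (zf ω) *
      (kA β a (zf ω) - q * omp 0 (zf ω) ^ 2)).re)) (SR x₁ (-1)) := by
    have c3 : ContinuousOn (fun ω : ℂ => ‖zd ω‖ ^ 2 * (W (zf ω) * (Mh M' β (zf ω) *
      ((Xf β a ω ^ 2 - q) / zd ω ^ 2)).re)) (SR x₁ (-1)) := by
      have s := SR_sub x₁ (-1)
      refine ((czd.mono s).norm.pow 2).mul ((hWc.comp_continuousOn (hzc.mono s)).mul
        (Complex.continuous_re.comp_continuousOn ?_))
      refine ((Mh_cont hM hβ.toExt).comp (hzc.mono s) hz1).mul ?_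
      refine ((((cX.mono s).pow 2).sub continuousOn_const)).div ((czd.mono s).pow 2) ?_
      intro ω hω
      exact pow_ne_zero 2 (hzd0 ω (s hω))
    refine c3.congr fun ω hω => ?_
    simp only
    rw [X_sq (Pool.Agent.Helper86.EK.exp_ne_neg_I (SR_sub _ _ hω)),
      mul_div_cancel_left₀ _ (pow_ne_zero 2 (hzd0 ω (SR_sub _ _ hω)))]
  -- the comparison
  have k1 := int_diff c1 c2 cE (by
    intro ω hω
    by_cases h0 : W (zf ω) = 0
    · rw [h0]
      simp only [zero_mul, mul_zero, sub_zero, abs_zero]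
      exact mul_nonneg hC0 (by positivity)
    · have h1 := hsup ω hω h0
      have e1 : pt ω.re ω.im = ω := by
        rw [Pool.Agent.Helper86.EK.pt_eq]
      have h2 := cmp hM q hβ.toExt ha ha1 (ξ := ω.re) (η := ω.im) hω.2.1 hω.2.2
        (hx1.trans hω.1.1) (by linarith) (by linarith)
      unfold Mt at h2
      rw [e1, ← hC₀] at h2
      have e2 : ∀ A B : ℝ, W (zf ω) * A - ‖zd ω‖ ^ 2 * (W (zf ω) * B) =
          W (zf ω) * (A - ‖zd ω‖ ^ 2 * B) := fun A B => by ring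
      rw [e2, abs_mul, abs_of_nonneg (hW0 _)]
      refine (mul_le_mul_of_nonneg_right (hW1 _) (abs_nonneg _)).trans ?_
      rw [one_mul]
      refine h2.trans (mul_le_mul_of_nonneg_left ?_ hC0)
      rw [mul_add, mul_one]
      exact add_le_add le_rfl (mul_le_mul_of_nonneg_right h1 (sq_nonneg _)))
  -- the integrals
  have e1 : II x₁ (-1) (fun ξ η => W (zf (pt ξ η)) * Mt M q (Xf β a) ξ η) =
      ∫ ω in SR x₁ (-1), W (zf ω) * (M (mX (Xf β a ω) (deriv (Xf β a) ω)
      (Real.sin ω.im) (Real.cos ω.im)) * e0 (Real.sin ω.im) (Real.cos ω.im) *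
      (Xf β a ω ^ 2 - q)).re := by
    have h1 := Pool.Agent.Helper86.EK.II_eq hx c1
    rw [SR, ← h1]
    simp only [Pool.Agent.Helper97.EK.pt_im]
    rfl
  have e2 : ∫ z0 : ℂ, W z0 * (Mh M' β z0 * (kA β a z0 - q * omp 0 z0 ^ 2)).re =
      ∫ ω in SR x₁ (-1), ‖zd ω‖ ^ 2 * (W (zf ω) * (Mh M' β (zf ω) *
      (kA β a (zf ω) - q * omp 0 (zf ω) ^ 2)).re) := by
    refine chg (g := fun z0 => W z0 * (Mh M' β z0 * (kA β a z0 - q * omp 0 z0 ^ 2)).re)
      fun z hz => ?_
    by_cases h0 : W z = 0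
    · simp only [h0, zero_mul]
    · exact absurd (himg z h0) hz
  have e3 : ∫ ω in SR x₁ (-1), C₀ * (Real.exp ω.re + Real.exp (-A) * ‖Xf β a ω - 1‖ ^ 2) ≤
      C₀ * (π + 1) * (1 + Real.exp (-A) * II x₁ (-1) (fun ξ η => ‖Xf β a (pt ξ η) - 1‖ ^ 2)) := by
    have hK : IsCompact (Rect x₁ (-1)) := isCompact_Icc.reProdIm isCompact_Icc
    have c5 : ContinuousOn (fun ω : ℂ => ‖Xf β a ω - 1‖ ^ 2) (Rect x₁ (-1)) :=
      (cX.sub continuousOn_const).norm.pow 2
    have c6 : ContinuousOn (fun ω : ℂ => Real.exp ω.re) (Rect x₁ (-1)) := by fun_prop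
    have i5 : IntegrableOn (fun ω : ℂ => ‖Xf β a ω - 1‖ ^ 2) (SR x₁ (-1)) :=
      (c5.integrableOn_compact hK).mono_set (SR_sub _ _)
    have i6 : IntegrableOn (fun ω : ℂ => Real.exp ω.re) (SR x₁ (-1)) :=
      (c6.integrableOn_compact hK).mono_set (SR_sub _ _)
    have h5 := Pool.Agent.Helper86.EK.II_eq hx c5
    have h6 := Pool.Agent.Helper86.EK.II_eq hx c6
    rw [integral_const_mul, integral_add i6 (i5.const_mul _), integral_const_mul]
    have h5' : ∫ ω in SR x₁ (-1), ‖Xf β a ω - 1‖ ^ 2 =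
        II x₁ (-1) (fun ξ η => ‖Xf β a (pt ξ η) - 1‖ ^ 2) := h5.symm
    have h6' : ∫ ω in SR x₁ (-1), Real.exp ω.re ≤ π := by
      have h7 : ∫ ω in SR x₁ (-1), Real.exp ω.re = II x₁ (-1) fun ξ η => Real.exp ξ := by
        rw [SR, ← h6]
        simp only [Pool.Agent.Helper97.EK.pt_re]
      rw [h7]
      unfold II
      simp only [intervalIntegral.integral_const, sub_zero, smul_eq_mul]
      rw [intervalIntegral.integral_const_mul, integral_exp]
      have h8 : Real.exp (-1) < 0.3678794412 := Real.exp_neg_one_lt_d9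
      have := Real.exp_pos x₁
      nlinarith [Real.pi_pos]
    rw [h5', mul_assoc]
    refine mul_le_mul_of_nonneg_left ?_ hC0
    have hnn : 0 ≤ II x₁ (-1) (fun ξ η => ‖Xf β a (pt ξ η) - 1‖ ^ 2) := by
      rw [← h5']
      exact integral_nonneg fun _ => sq_nonneg _
    have := mul_nonneg hexpA.le hnn
    nlinarith [Real.pi_pos]
  rw [e1, e2]
  exact k1.trans e3

end Pool.Agent.Helper69.CK
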