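import Pool.Agent.Helper69.CK.Frame
import Pool.Agent.Helper9.EK.Rot
set_option autoImplicit false
open Complex MeasureTheory Metric Set
open scoped Real ComplexConjugate

/-!
# Project CK: rotation of the multiplier term
-/

namespace Pool.Agent.Helper69.CK

open Pool.Agent.Helper39.Area Pool.Agent.Helper52.EK Pool.Agent.Helper52.CK
open Pool.Agent.Helper9.EK (rotβ norm_exp_mul deriv_rotβ mrad_rot conj_exp_mul norm_exp_one)

theorem phi_rot {β : ℂ → ℂ} (α : ℝ) (z : ℂ) :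
    phi (rotβ β α) z = Complex.exp (α * I) * phi β (Complex.exp (α * I) * z) := by
  have hc : Complex.exp (α * I) ≠ 0 := Complex.exp_ne_zero _
  unfold phi rotβ
  rw [mul_add, mul_inv, ← mul_assoc, mul_inv_cancel₀ hc, one_mul]

theorem dphi_rot {β : ℂ → ℂ} (α : ℝ) (z : ℂ) :
    dphi (rotβ β α) z = Complex.exp (α * I) ^ 2 * dphi β (Complex.exp (α * I) * z) := by
  have hc : Complex.exp (α * I) ≠ 0 := Complex.exp_ne_zero _
  unfold dphi
  have h1 : Complex.exp (α * I) ^ 2 * (Complex.exp (α * I) ^ 2)⁻¹ = 1 :=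
    mul_inv_cancel₀ (pow_ne_zero 2 hc)
  rw [deriv_rotβ, mul_pow, mul_inv]
  linear_combination (z ^ 2)⁻¹ * h1

theorem kA_rot {β : ℂ → ℂ} (α : ℝ) (b z : ℂ) :
    kA (rotβ β α) b z = Complex.exp (α * I) ^ 2 *
      kA β (Complex.exp (α * I) * b) (Complex.exp (α * I) * z) := by
  have hc : Complex.exp (α * I) ≠ 0 := Complex.exp_ne_zero _
  unfold kA
  rw [phi_rot, phi_rot, dphi_rot, ← mul_sub, mul_left_comm (2:ℂ)]
  have e : Complex.exp (α * I) ^ 2 * dphi β (Complex.exp (α * I) * z) /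
      (Complex.exp (α * I) * (2 * (phi β (Complex.exp (α * I) * z) -
        phi β (Complex.exp (α * I) * b)))) =
      Complex.exp (α * I) * (dphi β (Complex.exp (α * I) * z) /
      (2 * (phi β (Complex.exp (α * I) * z) - phi β (Complex.exp (α * I) * b)))) := by
    rw [pow_two, mul_assoc, mul_div_mul_left _ _ hc, mul_div_assoc]
  rw [e, mul_pow]

theorem omp_rot (α : ℝ) (z : ℂ) :
    omp 0 z = Complex.exp (α * I) * omp α (Complex.exp (α * I) * z) := by
  have hc : Complex.exp (α * I) ≠ 0 := Complex.exp_ne_zero _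
  rw [omp_zero]
  unfold omp
  have e : Complex.exp (α * I) ^ 2 - (Complex.exp (α * I) * z) ^ 2 =
      Complex.exp (α * I) ^ 2 * (1 - z ^ 2) := by ring
  rw [e, ← mul_div_assoc, mul_left_comm, ← pow_two, mul_comm (2:ℂ),
    mul_div_mul_left _ _ (pow_ne_zero 2 hc)]

theorem Mh_rot {M' β : ℂ → ℂ} (α : ℝ) (z : ℂ) :
    Mh M' (rotβ β α) z = conj (Complex.exp (α * I)) ^ 2 * Mh M' β (Complex.exp (α * I) * z) := by
  unfold Mh
  rw [mrad_rot, norm_exp_mul, mul_div_assoc, mul_pow, ← mul_assoc, ← mul_assoc, ← mul_pow,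
    conj_exp_mul, one_pow, one_mul]

theorem ep_eq (x θ : ℝ) : ep (-x) θ = Complex.exp (θ * I) * ((Real.exp (-x) : ℝ) : ℂ) := by
  unfold ep
  rw [Complex.ofReal_exp, ← Complex.exp_add]
  congr 1
  push_cast
  ring

theorem integral_rot (α : ℝ) (f : ℂ → ℝ) :
    ∫ z : ℂ, f (Complex.exp (α * I) * z) = ∫ z : ℂ, f z := by
  obtain ⟨u, hu⟩ : ∃ u : Circle, (u : ℂ) = Complex.exp (α * I) := ⟨Circle.exp α, Circle.coe_exp α⟩
  have h1 := (rotation u).measurePreserving
  have h2 := h1.integral_comp (rotation u).toHomeomorph.measurableEmbedding f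
  rw [← h2]
  simp only [rotation_apply, hu]

/-- **rotation of the multiplier term** -/
theorem MM_rot (κ dl : ℝ) (W0 : ℂ → ℝ) (M' β : ℂ → ℂ) (x θ : ℝ) :
    MM κ dl W0 (Mh M' β) β x θ = π⁻¹ * ∫ z : ℂ, W0 (Complex.exp (θ * I) * z) *
      (Mh M' (rotβ β θ) z * (kA (rotβ β θ) ((Real.exp (-x) : ℝ) : ℂ) z -
        ((1 + dl / (2 * κ) : ℝ) : ℂ) * omp 0 z ^ 2)).re := by
  unfold MM
  rw [← integral_rot θ]
  congr 1
  refine integral_congr_ae (Filter.Eventually.of_forall fun z => ?_)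
  simp only
  rw [Mh_rot, kA_rot, omp_rot θ, ep_eq]
  have h := conj_exp_mul θ
  congr 2
  have e : ∀ A B C D E : ℂ, E * D = 1 →
      B * (A - C) = E ^ 2 * B * (D ^ 2 * A - D ^ 2 * C) := by
    intro A B C D E h
    linear_combination (-(B * (A - C)) * (E * D + 1)) * h
  have e1 := e (kA β (Complex.exp (θ * I) * ((Real.exp (-x) : ℝ) : ℂ)) (Complex.exp (θ * I) * z))
    (Mh M' β (Complex.exp (θ * I) * z)) (((1 + dl / (2 * κ) : ℝ) : ℂ) *
      omp θ (Complex.exp (θ * I) * z) ^ 2) (Complex.exp (θ * I)) (conj (Complex.exp (θ * I))) h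
  rw [e1]
  ring

end Pool.Agent.Helper69.CK
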