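import Pool.Agent.Helper69.CK.FrameC
import Pool.Agent.Helper69.CK.Conv
import Pool.Agent.Helper69.CK.Rot
import Pool.Agent.Helper97.CKC.Defs
set_option autoImplicit false
open Complex MeasureTheory Metric Set
open scoped Real ComplexConjugate

/-!
# Project CKC: the multiplier term, from the strip to the disc, complex constant
-/

namespace Pool.Agent.Helper69.CK

open Pool.Agent.Helper39.Area Pool.Agent.Helper52.EK Pool.Agent.Helper52.CK
open Pool.Agent.Helper9.EK (rotβ norm_exp_mul deriv_rotβ mrad_rot conj_exp_mul norm_exp_one)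

/-- **the multiplier term, from the strip to the disc** -/
theorem convC {M M' : ℂ → ℂ} {Mb L ε : ℝ} (hM : MOk M M' Mb L ε) (q : ℂ) :
    ∃ C : ℝ, 0 ≤ C ∧ ∀ (β : ℂ → ℂ) (R a A x₁ : ℝ) (W : ℂ → ℝ), ExtR β R → 0 < a → a < 1 →
      Real.log (tau a) < x₁ → x₁ ≤ -1 → 8 * Real.exp (-A) ≤ 1 → 184 * Real.exp (-A) ≤ ε →
      Continuous W → (∀ z, 0 ≤ W z) → (∀ z, W z ≤ 1) →
      (∀ z, W z ≠ 0 → ‖z‖ < 1 ∧ Real.exp x₁ < ‖1 - z‖ / ‖1 + z‖ ∧
        ‖1 - z‖ / ‖1 + z‖ ≤ Real.exp (-A)) →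
      |II x₁ (-1) (fun ξ η => W (zf (pt ξ η)) * MtC M q (Xf β a) ξ η) -
        ∫ z0 : ℂ, W z0 * (Mh M' β z0 * (kA β a z0 - q * omp 0 z0 ^ 2)).re| ≤
        C * (1 + Real.exp (-A) * II x₁ (-1) (fun ξ η => ‖Xf β a (pt ξ η) - 1‖ ^ 2)) := by
  obtain ⟨C₀, hC₀⟩ : ∃ C₀ : ℝ, C₀ = (164 * L + 8 * Mb) * (2 + ‖1 - q‖) := ⟨_, rfl⟩
  have hL := hM.L0
  have hMb := hM.Mb0
  have hC0 : 0 ≤ C₀ := by rw [hC₀]; positivity
  refine ⟨C₀ * (π + 1), mul_nonneg hC0 (by positivity), ?_⟩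
  intro β R a A x₁ W hβ ha ha1 hx1 hx hA1 hA2 hWc hW0 hW1 hWs
  have hxm : (-1:ℝ) < 0 := by norm_num
  have hX : NiceX (Xf β a) x₁ (-1) := Pool.Agent.Helper67.EK.E1c hβ ha ha1 hx1 hxm
  have hexpA := Real.exp_pos (-A)
  have hAm : Real.exp (-A) < Real.exp (-1) := by
    have h4 : (0.36787944116:ℝ) < Real.exp (-1) := Real.exp_neg_one_gt_d9
    linarith
  have himg : ∀ z, W z ≠ 0 → z ∈ zf '' SR x₁ (-1) := fun z hz => by
    obtain ⟨h1, h2, h3⟩ := hWs z hz
    exact mem_image_zf h1 h2 (h3.trans_lt hAm)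
  -- the support in the strip
  have hsup : ∀ ω ∈ SR x₁ (-1), W (zf ω) ≠ 0 → Real.exp ω.re ≤ Real.exp (-A) := by
    intro ω hω h0
    obtain ⟨_, _, h3⟩ := hWs _ h0
    have e1 := Pool.Agent.Helper86.EK.exp_ne_neg_I (SR_sub _ _ hω)
    have e2 : ‖1 - zf ω‖ / ‖1 + zf ω‖ = Real.exp ω.re := by
      rw [← norm_div]
      have e3 : (1 - zf ω) / (1 + zf ω) = Complex.exp ω / I := by
        have h5 : 1 - zf ω = 2 * Complex.exp ω / (I + Complex.exp ω) := by
          unfold zf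
          field_simp
          ring
        have h6 : 1 + zf ω = 2 * I / (I + Complex.exp ω) := by
          unfold zf
          field_simp
          ring
        rw [h5, h6]
        field_simp
      rw [e3, norm_div, Complex.norm_I, div_one, Complex.norm_exp]
    rwa [e2] at h3
  -- continuity
  have hzc : ContinuousOn zf (Rect x₁ (-1)) := fun ω hω =>
    (Pool.Agent.Helper86.EK.hasDerivAt_zf
      (Pool.Agent.Helper86.EK.exp_ne_neg_I hω)).continuousAt.continuousWithinAt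
  have cX := hX.an.continuousOn
  have cY := hX.an.deriv.continuousOn
  have ce : Continuous fun ω : ℂ => e0 (Real.sin ω.im) (Real.cos ω.im) := by
    unfold e0
    fun_prop
  have cm : ContinuousOn (fun ω : ℂ => mX (Xf β a ω) (deriv (Xf β a) ω) (Real.sin ω.im)
      (Real.cos ω.im)) (Rect x₁ (-1)) := by
    unfold mX
    exact ((continuousOn_const.add ce.continuousOn).mul
      (((continuousOn_const.mul cX).sub continuousOn_const).add (cY.div cX hX.ne))).sub
      continuousOn_const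
  have c1 : ContinuousOn (fun ω : ℂ => W (zf ω) * (M (mX (Xf β a ω) (deriv (Xf β a) ω)
      (Real.sin ω.im) (Real.cos ω.im)) * e0 (Real.sin ω.im) (Real.cos ω.im) *
      (Xf β a ω ^ 2 - q)).re) (Rect x₁ (-1)) := by
    refine (hWc.comp_continuousOn hzc).mul (Complex.continuous_re.comp_continuousOn ?_)
    exact ((hM.cont.comp_continuousOn cm).mul ce.continuousOn).mul
      ((cX.pow 2).sub continuousOn_const)
  have cE : ContinuousOn (fun ω : ℂ => C₀ * (Real.exp ω.re + Real.exp (-A) *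
      ‖Xf β a ω - 1‖ ^ 2)) (Rect x₁ (-1)) := by
    refine continuousOn_const.mul (ContinuousOn.add (by fun_prop)
      (continuousOn_const.mul ((cX.sub continuousOn_const).norm.pow 2)))
  have hz1 : ∀ ω ∈ SR x₁ (-1), 0 < ‖zf ω‖ ∧ ‖zf ω‖ < 1 := by
    intro ω hω
    refine ⟨norm_pos_iff.2 (Pool.Agent.Helper86.EK.zf_ne_zero hxm (SR_sub _ _ hω)), ?_⟩
    apply Pool.Agent.Helper86.EK.norm_zf_lt
    rw [Complex.exp_im]
    exact mul_pos (Real.exp_pos _) (Real.sin_pos_of_pos_of_lt_pi hω.2.1 hω.2.2)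
  have hzd0 : ∀ ω ∈ Rect x₁ (-1), zd ω ≠ 0 := by
    intro ω hω
    have h1 := Pool.Agent.Helper86.EK.exp_ne_neg_I hω
    unfold zd
    refine div_ne_zero (mul_ne_zero (mul_ne_zero (by norm_num) Complex.I_ne_zero)
      (Complex.exp_ne_zero _)) (pow_ne_zero 2 (by rwa [add_comm]))
  have czd : ContinuousOn zd (Rect x₁ (-1)) := by
    unfold zd
    apply ContinuousOn.div (by fun_prop) (by fun_prop)
    intro ω hω
    apply pow_ne_zero
    rw [add_comm]
    exact Pool.Agent.Helper86.EK.exp_ne_neg_I hω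
  have c2 : ContinuousOn (fun ω : ℂ => ‖zd ω‖ ^ 2 * (W (zf ω) * (Mh M' β (zf ω) *
      (kA β a (zf ω) - q * omp 0 (zf ω) ^ 2)).re)) (SR x₁ (-1)) := by
    have c3 : ContinuousOn (fun ω : ℂ => ‖zd ω‖ ^ 2 * (W (zf ω) * (Mh M' β (zf ω) *
      ((Xf β a ω ^ 2 - q) / zd ω ^ 2)).re)) (SR x₁ (-1)) := by
      have s := SR_sub x₁ (-1)
      refine ((czd.mono s).norm.pow 2).mul ((hWc.comp_continuousOn (hzc.mono s)).mul
        (Complex.continuous_re.comp_continuousOn ?_))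
      refine ((Mh_cont hM hβ.toExt).comp (hzc.mono s) hz1).mul ?_
      refine ((((cX.mono s).pow 2).sub continuousOn_const)).div ((czd.mono s).pow 2) ?_
      intro ω hω
      exact pow_ne_zero 2 (hzd0 ω (s hω))
    refine c3.congr fun ω hω => ?_
    simp only
    rw [X_sqC (Pool.Agent.Helper86.EK.exp_ne_neg_I (SR_sub _ _ hω)),
      mul_div_cancel_left₀ _ (pow_ne_zero 2 (hzd0 ω (SR_sub _ _ hω)))]
  -- the comparison
  have k1 := int_diff c1 c2 cE (by
    intro ω hω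
    by_cases h0 : W (zf ω) = 0
    · rw [h0]
      simp only [zero_mul, mul_zero, sub_zero, abs_zero]
      exact mul_nonneg hC0 (by positivity)
    · have h1 := hsup ω hω h0
      have e1 : pt ω.re ω.im = ω := by
        rw [Pool.Agent.Helper86.EK.pt_eq]
      have h2 := cmpC hM q hβ.toExt ha ha1 (ξ := ω.re) (η := ω.im) hω.2.1 hω.2.2
        (hx1.trans hω.1.1) (by linarith) (by linarith)
      unfold MtC at h2
      rw [e1, ← hC₀] at h2
      have e2 : ∀ A B : ℝ, W (zf ω) * A - ‖zd ω‖ ^ 2 * (W (zf ω) * B) =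
          W (zf ω) * (A - ‖zd ω‖ ^ 2 * B) := fun A B => by ring
      rw [e2, abs_mul, abs_of_nonneg (hW0 _)]
      refine (mul_le_mul_of_nonneg_right (hW1 _) (abs_nonneg _)).trans ?_
      rw [one_mul]
      refine h2.trans (mul_le_mul_of_nonneg_left ?_ hC0)
      rw [mul_add, mul_one]
      exact add_le_add le_rfl (mul_le_mul_of_nonneg_right h1 (sq_nonneg _)))
  -- the integrals
  have e1 : II x₁ (-1) (fun ξ η => W (zf (pt ξ η)) * MtC M q (Xf β a) ξ η) =
      ∫ ω in SR x₁ (-1), W (zf ω) * (M (mX (Xf β a ω) (deriv (Xf β a) ω)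
      (Real.sin ω.im) (Real.cos ω.im)) * e0 (Real.sin ω.im) (Real.cos ω.im) *
      (Xf β a ω ^ 2 - q)).re := by
    have h1 := Pool.Agent.Helper86.EK.II_eq hx c1
    rw [SR, ← h1]
    simp only [Pool.Agent.Helper97.EK.pt_im]
    rfl
  have e2 : ∫ z0 : ℂ, W z0 * (Mh M' β z0 * (kA β a z0 - q * omp 0 z0 ^ 2)).re =
      ∫ ω in SR x₁ (-1), ‖zd ω‖ ^ 2 * (W (zf ω) * (Mh M' β (zf ω) *
      (kA β a (zf ω) - q * omp 0 (zf ω) ^ 2)).re) := by
    refine chg (g := fun z0 => W z0 * (Mh M' β z0 * (kA β a z0 - q * omp 0 z0 ^ 2)).re)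
      fun z hz => ?_
    by_cases h0 : W z = 0
    · simp only [h0, zero_mul]
    · exact absurd (himg z h0) hz
  have e3 : ∫ ω in SR x₁ (-1), C₀ * (Real.exp ω.re + Real.exp (-A) * ‖Xf β a ω - 1‖ ^ 2) ≤
      C₀ * (π + 1) * (1 + Real.exp (-A) * II x₁ (-1) (fun ξ η => ‖Xf β a (pt ξ η) - 1‖ ^ 2)) := by
    have hK : IsCompact (Rect x₁ (-1)) := isCompact_Icc.reProdIm isCompact_Icc
    have c5 : ContinuousOn (fun ω : ℂ => ‖Xf β a ω - 1‖ ^ 2) (Rect x₁ (-1)) :=
      (cX.sub continuousOn_const).norm.pow 2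
    have c6 : ContinuousOn (fun ω : ℂ => Real.exp ω.re) (Rect x₁ (-1)) := by fun_prop
    have i5 : IntegrableOn (fun ω : ℂ => ‖Xf β a ω - 1‖ ^ 2) (SR x₁ (-1)) :=
      (c5.integrableOn_compact hK).mono_set (SR_sub _ _)
    have i6 : IntegrableOn (fun ω : ℂ => Real.exp ω.re) (SR x₁ (-1)) :=
      (c6.integrableOn_compact hK).mono_set (SR_sub _ _)
    have h5 := Pool.Agent.Helper86.EK.II_eq hx c5
    have h6 := Pool.Agent.Helper86.EK.II_eq hx c6
    rw [integral_const_mul, integral_add i6 (i5.const_mul _), integral_const_mul]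
    have h5' : ∫ ω in SR x₁ (-1), ‖Xf β a ω - 1‖ ^ 2 =
        II x₁ (-1) (fun ξ η => ‖Xf β a (pt ξ η) - 1‖ ^ 2) := h5.symm
    have h6' : ∫ ω in SR x₁ (-1), Real.exp ω.re ≤ π := by
      have h7 : ∫ ω in SR x₁ (-1), Real.exp ω.re = II x₁ (-1) fun ξ η => Real.exp ξ := by
        rw [SR, ← h6]
        simp only [Pool.Agent.Helper97.EK.pt_re]
      rw [h7]
      unfold II
      simp only [intervalIntegral.integral_const, sub_zero, smul_eq_mul]
      rw [intervalIntegral.integral_const_mul, integral_exp]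
      have h8 : Real.exp (-1) < 0.3678794412 := Real.exp_neg_one_lt_d9
      have := Real.exp_pos x₁
      nlinarith [Real.pi_pos]
    rw [h5', mul_assoc]
    refine mul_le_mul_of_nonneg_left ?_ hC0
    have hnn : 0 ≤ II x₁ (-1) (fun ξ η => ‖Xf β a (pt ξ η) - 1‖ ^ 2) := by
      rw [← h5']
      exact integral_nonneg fun _ => sq_nonneg _
    have := mul_nonneg hexpA.le hnn
    nlinarith [Real.pi_pos]
  rw [e1, e2]
  exact k1.trans e3

/-- **rotation of the multiplier term** -/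
theorem MC_rot (κ dl : ℝ) (u : ℂ) (W0 : ℂ → ℝ) (M' β : ℂ → ℂ) (x θ : ℝ) :
    Pool.Agent.Helper97.CKC.MC κ dl u W0 (Mh M' β) β x θ = π⁻¹ * ∫ z : ℂ, W0 (Complex.exp (θ * I) * z) *
      (Mh M' (rotβ β θ) z * (kA (rotβ β θ) ((Real.exp (-x) : ℝ) : ℂ) z -
        Pool.Agent.Helper97.CKC.tau κ dl u * omp 0 z ^ 2)).re := by
  unfold Pool.Agent.Helper97.CKC.MC
  rw [← integral_rot θ]
  congr 1
  refine integral_congr_ae (Filter.Eventually.of_forall fun z => ?_)
  simp only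
  rw [Mh_rot, kA_rot, omp_rot θ, ep_eq]
  have h := conj_exp_mul θ
  congr 2
  have e : ∀ A B C D E : ℂ, E * D = 1 →
      B * (A - C) = E ^ 2 * B * (D ^ 2 * A - D ^ 2 * C) := by
    intro A B C D E h
    linear_combination (-(B * (A - C)) * (E * D + 1)) * h
  have e1 := e (kA β (Complex.exp (θ * I) * ((Real.exp (-x) : ℝ) : ℂ)) (Complex.exp (θ * I) * z))
    (Mh M' β (Complex.exp (θ * I) * z)) (Pool.Agent.Helper97.CKC.tau κ dl u *
      omp θ (Complex.exp (θ * I) * z) ^ 2) (Complex.exp (θ * I)) (conj (Complex.exp (θ * I))) h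
  rw [e1]
  ring

end Pool.Agent.Helper69.CK

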