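import Pool.Agent.Helper69.CK.DiscG
import Pool.Agent.Helper69.CKC.KOneCd
set_option autoImplicit false
open Complex MeasureTheory Metric Set
open scoped Real ComplexConjugate

/-!
# Project CK: multipliers of the discs with quadratic growth
-/

namespace Pool.Agent.Helper69.CK

open Pool.Agent.Helper39.Area Pool.Agent.Helper52.EK Pool.Agent.Helper69.EK3
open Pool.Agent.Helper69.EK7 Pool.Agent.Helper69.CKC

/-- the error of one disc -/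
theorem grow_one {s d B ε t l A c : ℝ} (hs : 0 ≤ s) (hd : 0 ≤ d) (hd8 : d ≤ 8)
    (hB : 0 ≤ B) (hε : 0 < ε) (ht : 0 ≤ t) (hst : s * t ≤ 10) (hs1 : s ≤ 1) (hc : 0 ≤ c)
    (hA : A ≤ c * (d * s)) (hl0 : 0 ≤ l) (hl : l ≤ B * (1 + t ^ 2)) :
    l * A ≤ (c * B + 200 * c ^ 2 * B ^ 2 / ε) * d + ε * t ^ 2 := by
  have h1 : l * A ≤ l * (c * (d * s)) := mul_le_mul_of_nonneg_left hA hl0
  have h2 : l * (c * (d * s)) ≤ B * (1 + t ^ 2) * (c * (d * s)) :=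
    mul_le_mul_of_nonneg_right hl (by positivity)
  have h3 : B * (1 + t ^ 2) * (c * (d * s)) = c * B * d * s + c * B * d * ((s * t) * t) := by ring
  have h4 : c * B * d * s ≤ c * B * d := by
    have : 0 ≤ c * B * d := by positivity
    nlinarith
  have h5 : c * B * d * ((s * t) * t) ≤ c * B * d * (10 * t) :=
    mul_le_mul_of_nonneg_left (mul_le_mul_of_nonneg_right hst ht) (by positivity)
  have h6 : c * B * d * (10 * t) ≤ ε * t ^ 2 + (10 * c * B * d) ^ 2 / (4 * ε) := by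
    have e : ε * t ^ 2 + (10 * c * B * d) ^ 2 / (4 * ε) - c * B * d * (10 * t) =
        (2 * ε * t - 10 * c * B * d) ^ 2 / (4 * ε) := by
      field_simp
      ring
    have : 0 ≤ (2 * ε * t - 10 * c * B * d) ^ 2 / (4 * ε) := by positivity
    linarith
  have h7 : (10 * c * B * d) ^ 2 / (4 * ε) ≤ 200 * c ^ 2 * B ^ 2 / ε * d := by
    rw [div_le_iff₀ (by positivity)]
    have e : 200 * c ^ 2 * B ^ 2 / ε * d * (4 * ε) = 800 * c ^ 2 * B ^ 2 * d := by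
      field_simp
      ring
    rw [e]
    have : d ^ 2 ≤ 8 * d := by nlinarith
    have h8 : (10 * c * B * d) ^ 2 = 100 * c ^ 2 * B ^ 2 * d ^ 2 := by ring
    rw [h8]
    have h9 : 0 ≤ 100 * c ^ 2 * B ^ 2 := by positivity
    nlinarith
  have h10 : (c * B + 200 * c ^ 2 * B ^ 2 / ε) * d =
      c * B * d + 200 * c ^ 2 * B ^ 2 / ε * d := by ring
  rw [h10]
  linarith

/-- **the error of the discs with quadratic growth of the multipliers** -/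
theorem grow_err {B ε : ℝ} (hB : 0 ≤ B) (hε : 0 < ε) : ∃ K : ℝ, 0 ≤ K ∧
    ∀ (X : ℂ) (s d A₁ A₂ l₀ l₁ l₂ : ℝ), 0 ≤ s → s ≤ 1 → 0 ≤ d → d ≤ 8 →
      s * ‖X‖ ≤ 1 + d * s → 0 ≤ A₁ → A₁ ≤ 4 * (1 + d * s) → 0 ≤ A₂ → A₂ ≤ 4 * (1 + d * s) →
      0 ≤ l₀ → l₀ ≤ B * (1 + ‖X - 1‖ ^ 2) → 0 ≤ l₁ → l₁ ≤ B * (1 + ‖X - 1‖ ^ 2) →
      0 ≤ l₂ → l₂ ≤ B * (1 + ‖X - 1‖ ^ 2) →
      l₀ * ((s * ‖X‖) ^ 2 - 1) + l₁ * (A₁ ^ 2 - 16) + l₂ * (A₂ ^ 2 - 16) ≤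
        K * d + ε * ‖X - 1‖ ^ 2 := by
  have hε3 : 0 < ε / 3 := by positivity
  refine ⟨3 * (160 * B + 200 * 160 ^ 2 * B ^ 2 / (ε / 3)), by positivity, ?_⟩
  intro X s d A₁ A₂ l₀ l₁ l₂ hs hs1 hd hd8 hX hA₁ hA₁' hA₂ hA₂' h0 h0' h1 h1' h2 h2'
  have hds : 0 ≤ d * s := mul_nonneg hd hs
  have hds8 : d * s ≤ 8 := by nlinarith
  have hn := norm_nonneg X
  have ht := norm_nonneg (X - 1)
  have ht1 : ‖X - 1‖ ≤ ‖X‖ + 1 := by
    have := norm_sub_le X 1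
    rwa [norm_one] at this
  have hst : s * ‖X - 1‖ ≤ 10 := by
    have q1 : s * ‖X - 1‖ ≤ s * (‖X‖ + 1) := mul_le_mul_of_nonneg_left ht1 hs
    nlinarith
  have a0 : (s * ‖X‖) ^ 2 - 1 ≤ 160 * (d * s) := by
    have q1 : 0 ≤ s * ‖X‖ := mul_nonneg hs hn
    have q2 : (s * ‖X‖) ^ 2 ≤ (1 + d * s) ^ 2 := pow_le_pow_left₀ q1 hX 2
    nlinarith
  have a1 : A₁ ^ 2 - 16 ≤ 160 * (d * s) := by
    have q2 : A₁ ^ 2 ≤ (4 * (1 + d * s)) ^ 2 := pow_le_pow_left₀ hA₁ hA₁' 2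
    nlinarith
  have a2 : A₂ ^ 2 - 16 ≤ 160 * (d * s) := by
    have q2 : A₂ ^ 2 ≤ (4 * (1 + d * s)) ^ 2 := pow_le_pow_left₀ hA₂ hA₂' 2
    nlinarith
  have b0 := grow_one hs hd hd8 hB hε3 ht hst hs1 (by norm_num : (0:ℝ) ≤ 160) a0 h0 h0'
  have b1 := grow_one hs hd hd8 hB hε3 ht hst hs1 (by norm_num : (0:ℝ) ≤ 160) a1 h1 h1'
  have b2 := grow_one hs hd hd8 hB hε3 ht hst hs1 (by norm_num : (0:ℝ) ≤ 160) a2 h2 h2'
  linarith

/-- the class with the hyperbolic error is contained in the old classes -/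
theorem DiscG.toP {X : ℂ → ℂ} {x₁ x₂ : ℝ} (h : DiscG (π / 2) X x₁ x₂) : DiscP X x₁ x₂ := by
  have hpi := Real.pi_pos
  obtain ⟨δ, h1, h2, h3, h4, h5⟩ := h
  refine ⟨δ, h1, h2, h3, h4, fun ξ hξ η hη => ?_⟩
  obtain ⟨k1, k2, k3⟩ := h5 ξ hξ η hη
  have := ds_le (h2 ξ) (sin_nnh (h := π / 2) (by linarith) hη) (Real.sin_le_one η)
  exact ⟨k1.trans (by linarith), k2.trans (by linarith), k3.trans (by linarith)⟩

theorem DiscG.toF {X : ℂ → ℂ} {x₁ x₂ : ℝ} (h : DiscG π X x₁ x₂) : DiscF X x₁ x₂ := by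
  obtain ⟨δ, h1, h2, h3, h4, h5⟩ := h
  refine ⟨δ, h1, h2, h3, h4, fun ξ hξ η hη => ?_⟩
  obtain ⟨k1, k2, k3⟩ := h5 ξ hξ η hη
  have := ds_le (h2 ξ) (sin_nnh le_rfl hη) (Real.sin_le_one η)
  exact ⟨k1.trans (by linarith), k2.trans (by linarith), k3.trans (by linarith)⟩

end Pool.Agent.Helper69.CK
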