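import Pool.Agent.Helper69.EK3.Bieb
set_option autoImplicit false
open Complex Metric Set Filter Topology
open scoped Real ComplexConjugate

/-! Project CK: the inequalities of Koebe and Bieberbach at all points of the strip, with the
hyperbolic distance to the poles. -/

namespace Pool.Agent.Helper69.CK

open Pool.Agent.Helper39.Area Pool.Agent.Helper52.EK Pool.Agent.Helper67.EK
open Pool.Agent.Helper69.EK3

/-- the distance estimate -/
theorem oo_ne_g {ξ η σ r : ℝ} (h0 : 0 < η) (h1 : η < π) (hσ : 0 < σ)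
    (hr1 : r ^ 2 * (Real.exp ξ ^ 2 + σ ^ 2 + 2 * Real.exp ξ * σ * Real.sin η) ≤
      Real.exp ξ ^ 2 + σ ^ 2 - 2 * Real.exp ξ * σ * Real.sin η) {u : ℂ} (hu : ‖u‖ < r)
    (hu1 : ‖u‖ < 1) : Complex.exp (oo ξ η u) ≠ (σ : ℂ) * I := by
  have hs := Real.sin_pos_of_pos_of_lt_pi h0 h1
  have hy := Real.exp_pos ξ
  intro hc
  have hE := oo_exp ξ η hu1
  rw [hc] at hE
  set Z := Complex.exp (pt ξ η) with hZ
  have hE2 : (conj Z - (σ : ℂ) * I) * u = Z - (σ : ℂ) * I := by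
    rw [hZ, conj_exp_pt, ← hZ]
    linear_combination hE
  have hZr : Z.re = Real.exp ξ * Real.cos η := by rw [hZ, exp_pt_re]
  have hZi : Z.im = Real.exp ξ * Real.sin η := by rw [hZ, exp_pt_im]
  have e1 := congrArg (fun w : ℂ => ‖w‖ ^ 2) hE2
  simp only [norm_mul, mul_pow] at e1
  rw [← Complex.normSq_eq_norm_sq, ← Complex.normSq_eq_norm_sq (Z - _), Complex.normSq_apply,
    Complex.normSq_apply] at e1
  simp only [mul_im, mul_re, sub_re, sub_im, conj_re, conj_im, I_re, I_im, ofReal_re,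
    ofReal_im] at e1
  rw [hZr, hZi] at e1
  set y := Real.exp ξ with hyd
  set s := Real.sin η with hsd
  set c := Real.cos η with hcd
  have hsc : s ^ 2 + c ^ 2 = 1 := Real.sin_sq_add_cos_sq η
  have e2 : (y ^ 2 + σ ^ 2 + 2 * y * σ * s) * ‖u‖ ^ 2 = y ^ 2 + σ ^ 2 - 2 * y * σ * s := by
    linear_combination e1 + (-(‖u‖ ^ 2) * y ^ 2 + y ^ 2) * hsc
  have e4 : ‖u‖ ^ 2 < r ^ 2 := pow_lt_pow_left₀ hu (norm_nonneg u) (by norm_num)
  have e5 : 0 < y ^ 2 + σ ^ 2 + 2 * y * σ * s := by positivity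
  have e6 : (y ^ 2 + σ ^ 2 + 2 * y * σ * s) * ‖u‖ ^ 2 <
      (y ^ 2 + σ ^ 2 + 2 * y * σ * s) * r ^ 2 := mul_lt_mul_of_pos_left e4 e5
  linarith

/-- **Koebe and Bieberbach at all points of the strip** -/
theorem bieb_strip_g {β : ℂ → ℂ} {R : ℝ} (h : ExtR β R) {a : ℝ} (ha : 0 < a) (ha1 : a < 1)
    {ξ η : ℝ} (h1 : Real.log (tau a) < ξ) (h2 : ξ < 0) (h3 : 0 < η) (h4 : η < π) {r : ℝ}
    (hr : 0 < r) (hrlt : r < 1)
    (hr1 : r ^ 2 * (Real.exp ξ ^ 2 + 1 ^ 2 + 2 * Real.exp ξ * 1 * Real.sin η) ≤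
      Real.exp ξ ^ 2 + 1 ^ 2 - 2 * Real.exp ξ * 1 * Real.sin η)
    (hr2 : r ^ 2 * (Real.exp ξ ^ 2 + tau a ^ 2 + 2 * Real.exp ξ * tau a * Real.sin η) ≤
      Real.exp ξ ^ 2 + tau a ^ 2 - 2 * Real.exp ξ * tau a * Real.sin η) {X Y : ℂ}
    (hX : X = Xf β a (pt ξ η)) (hY : Y = deriv (Xf β a) (pt ξ η)) :
    Real.sin η * ‖X‖ * r ≤ 1 ∧
    ‖(1 + e0 (Real.sin η) (Real.cos η)) * (2 * X - 1 + Y / X) + 2‖ * r ≤ 4 ∧
    ‖(1 + e0 (Real.sin η) (Real.cos η)) * (-2 * X - 1 + Y / X) + 2‖ * r ≤ 4 := by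
  have hτ : 0 < tau a := by
    unfold tau
    have : 0 < 1 - a := by linarith
    positivity
  have hs := Real.sin_pos_of_pos_of_lt_pi h3 h4
  have hy := Real.exp_pos ξ
  have hat : a = (1 - tau a) / (1 + tau a) := by
    unfold tau
    field_simp
    ring
  have haB : (a : ℂ) ∈ ball (0:ℂ) 1 := by
    rw [mem_ball_zero_iff, Complex.norm_real, Real.norm_of_nonneg ha.le]
    exact ha1
  have ha0 : (a : ℂ) ≠ 0 := by exact_mod_cast ha.ne'
  have hlt : ∀ u ∈ ball (0:ℂ) r, ‖u‖ < 1 := by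
    intro u hu
    rw [mem_ball_zero_iff] at hu
    linarith
  have him : ∀ u ∈ ball (0:ℂ) r, 0 < (Complex.exp (oo ξ η u)).im := fun u hu =>
    oo_im h3 h4 (hlt u hu)
  have hmem : ∀ u ∈ ball (0:ℂ) r, zf (oo ξ η u) ∈ ball (0:ℂ) 1 := fun u hu =>
    zf_mem_of (him u hu)
  have hne0 : ∀ u ∈ ball (0:ℂ) r, zf (oo ξ η u) ≠ 0 := by
    intro u hu h0
    have hu' := hu
    rw [mem_ball_zero_iff] at hu'
    rw [zf, div_eq_zero_iff] at h0
    rcases h0 with h0 | h0
    · refine oo_ne_g (ξ := ξ) (σ := 1) h3 h4 one_pos hr1 hu' (hlt u hu) ?_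
      rw [ofReal_one, one_mul]
      linear_combination -h0
    · exact I_add_exp_ne (him u hu) h0
  have hnea : ∀ u ∈ ball (0:ℂ) r, zf (oo ξ η u) ≠ a := by
    intro u hu h0
    have hu' := hu
    rw [mem_ball_zero_iff] at hu'
    rw [zf, div_eq_iff (I_add_exp_ne (him u hu))] at h0
    refine oo_ne_g (ξ := ξ) (σ := tau a) h3 h4 hτ hr2 hu' (hlt u hu) ?_
    · have e1 : (1 + (a : ℂ)) * Complex.exp (oo ξ η u) = (1 - a) * I := by
        linear_combination -h0
      have e2 : (1 + (a : ℂ)) ≠ 0 := by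
        have : (1 + a : ℝ) ≠ 0 := by positivity
        exact_mod_cast this
      have e3 : ((tau a : ℝ) : ℂ) = (1 - a) / (1 + a) := by
        unfold tau
        push_cast
        rfl
      rw [e3, div_mul_eq_mul_div, eq_div_iff e2]
      linear_combination e1
  set G : ℂ → ℂ := fun u => phi β (zf (oo ξ η u)) - phi β a with hG
  set B : ℂ → ℂ := fun u => 2 * Xf β a (oo ξ η u) * od η u with hB
  have hGne : ∀ u ∈ ball (0:ℂ) r, G u ≠ 0 := by
    intro u hu h0
    exact hnea u hu (h.toExt.inj _ _ (hmem u hu) haB (hne0 u hu) ha0 (sub_eq_zero.mp h0))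
  have hGi : InjOn G (ball 0 r) := by
    intro u hu v hv huv
    have e1 : phi β (zf (oo ξ η u)) = phi β (zf (oo ξ η v)) := by
      have : phi β (zf (oo ξ η u)) - phi β a = phi β (zf (oo ξ η v)) - phi β a := huv
      linear_combination this
    have e2 := h.toExt.inj _ _ (hmem u hu) (hmem v hv) (hne0 u hu) (hne0 v hv) e1
    have e3 : Complex.exp (oo ξ η u) = Complex.exp (oo ξ η v) := by
      unfold zf at e2
      rw [div_eq_div_iff (I_add_exp_ne (him u hu)) (I_add_exp_ne (him v hv))] at e2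
      have e4 : (Complex.exp (oo ξ η u) - Complex.exp (oo ξ η v)) * (2 * I) = 0 := by
        linear_combination -e2
      rcases mul_eq_zero.mp e4 with e4 | e4
      · linear_combination e4
      · exact absurd e4 (by simp)
    have u1 := oo_exp ξ η (hlt u hu)
    have v1 := oo_exp ξ η (hlt v hv)
    rw [e3] at u1
    have e5 : Complex.exp (pt ξ η) * ((kq η - 1) * (u - v)) = 0 := by
      linear_combination (1 - v) * u1 - (1 - u) * v1
    rcases mul_eq_zero.mp e5 with e6 | e6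
    · exact absurd e6 (Complex.exp_ne_zero _)
    · rcases mul_eq_zero.mp e6 with e7 | e7
      · exact absurd (by linear_combination e7) (kq_ne_one h3 h4)
      · linear_combination e7
  have hGd : ∀ u ∈ ball (0:ℂ) r, HasDerivAt G (G u * B u) u := by
    intro u hu
    have d1 := oo_hasDerivAt ξ η (hlt u hu)
    have d2 := (Pool.Agent.Helper97.EK.hasDerivAt_zf (I_add_exp_ne (him u hu))).comp u d1
    have d3 := (hasDerivAt_phi h.toExt.diff (hmem u hu) (hne0 u hu)).comp u d2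
    have d4 := d3.sub_const (phi β a)
    have e : G u * B u = dphi β (zf (oo ξ η u)) * (zd (oo ξ η u) * od η u) := by
      have := hGne u hu
      simp only [hG] at this
      simp only [hG, hB]
      unfold Xf
      field_simp
    rw [e]
    exact d4
  obtain ⟨x₁, hx₁, hx₁'⟩ := exists_between h1
  obtain ⟨x₂, hx₂, hx₂'⟩ := exists_between h2
  have hN := E1c h ha ha1 hx₁ hx₂'
  have hω0 : pt ξ η ∈ Rect x₁ x₂ := by
    unfold Rect
    rw [Complex.mem_reProdIm]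
    have e1 : (pt ξ η).re = ξ := by simp [pt]
    have e2 : (pt ξ η).im = η := by simp [pt]
    rw [e1, e2]
    exact ⟨⟨hx₁'.le, hx₂.le⟩, ⟨h3.le, h4.le⟩⟩
  have hXa : AnalyticAt ℂ (Xf β a) (pt ξ η) := hN.an _ hω0
  have hX0 : X ≠ 0 := by rw [hX]; exact hN.ne _ hω0
  have hz1 : ‖(0:ℂ)‖ < 1 := by simp
  have hBd : HasDerivAt B (2 * (Y * od η 0) * od η 0 + 2 * X * (1 - kq η ^ 2)) 0 := by
    have d1 := oo_hasDerivAt ξ η hz1
    have d2 : HasDerivAt (Xf β a) Y (oo ξ η 0) := by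
      rw [oo_zero, hY]
      exact hXa.differentiableAt.hasDerivAt
    have d3 := ((d2.comp (0:ℂ) d1).const_mul 2).mul (od_hasDerivAt η)
    have e : 2 * (Y * od η 0) * od η 0 + 2 * X * (1 - kq η ^ 2) =
        2 * (Y * od η 0) * od η 0 + 2 * (Xf β a ∘ oo ξ η) 0 * (1 - kq η ^ 2) := by
      rw [Function.comp_apply, oo_zero, hX]
    rw [e]
    exact d3
  obtain ⟨k1, k2, k3⟩ := univ_log hr hGi hGne hGd hBd
  have hB0 : B 0 = 2 * X * (1 - kq η) := by
    simp only [hB]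
    rw [oo_zero, od_zero, hX]
  have hkn : ‖1 - kq η‖ = 2 * Real.sin η := by
    have e1 : 1 - kq η = (2 * Real.sin η : ℝ) * ((Real.sin η : ℂ) + (Real.cos η : ℂ) * I) := by
      rw [kq_eq]
      push_cast
      have h5 : Complex.cos η ^ 2 + Complex.sin η ^ 2 = 1 := Complex.cos_sq_add_sin_sq _
      linear_combination -h5 - Complex.sin η ^ 2 * I_sq
    have e2 : ‖(Real.sin η : ℂ) + (Real.cos η : ℂ) * I‖ = 1 := by
      have e3 : ‖(Real.sin η : ℂ) + (Real.cos η : ℂ) * I‖ ^ 2 = 1 := by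
        rw [← Complex.normSq_eq_norm_sq, Complex.normSq_apply]
        simp only [add_re, add_im, mul_re, mul_im, ofReal_re, ofReal_im, I_re, I_im, mul_zero,
          mul_one, sub_zero, add_zero, zero_add]
        nlinarith [Real.sin_sq_add_cos_sq η]
      have e4 := norm_nonneg ((Real.sin η : ℂ) + (Real.cos η : ℂ) * I)
      nlinarith
    rw [e1, norm_mul, e2, mul_one, Complex.norm_real, Real.norm_of_nonneg (by positivity)]
  have hke : 1 + e0 (Real.sin η) (Real.cos η) = 1 - kq η := by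
    unfold kq
    ring
  have hXn : 0 < ‖X‖ := norm_pos_iff.mpr hX0
  have hBn : ‖B 0‖ = 4 * (Real.sin η * ‖X‖) := by
    rw [hB0, norm_mul, norm_mul, hkn]
    have : ‖(2:ℂ)‖ = 2 := by simp
    rw [this]
    ring
  have hBp : 0 < ‖B 0‖ := by
    rw [hBn]
    positivity
  refine ⟨?_, ?_, ?_⟩
  · rw [hBn] at k1
    nlinarith
  · have e : 2 * (Y * od η 0) * od η 0 + 2 * X * (1 - kq η ^ 2) + B 0 ^ 2 =
        B 0 * ((1 - kq η) * (2 * X - 1 + Y / X) + 2) := by
      rw [hB0, od_zero]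
      field_simp
      ring
    rw [e, norm_mul] at k2
    rw [hke]
    have : ‖B 0‖ * (‖(1 - kq η) * (2 * X - 1 + Y / X) + 2‖ * r) ≤ ‖B 0‖ * 4 := by nlinarith
    exact le_of_mul_le_mul_left this hBp
  · have e : 2 * (Y * od η 0) * od η 0 + 2 * X * (1 - kq η ^ 2) - B 0 ^ 2 =
        B 0 * ((1 - kq η) * (-2 * X - 1 + Y / X) + 2) := by
      rw [hB0, od_zero]
      field_simp
      ring
    rw [e, norm_mul] at k3
    rw [hke]
    have : ‖B 0‖ * (‖(1 - kq η) * (-2 * X - 1 + Y / X) + 2‖ * r) ≤ ‖B 0‖ * 4 := by nlinarith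
    exact le_of_mul_le_mul_left this hBp

end Pool.Agent.Helper69.CK
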