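import Pool.Agent.Helper77.CK.PTC
import Pool.Agent.Helper52.CK.Main
set_option autoImplicit false
open Complex MeasureTheory Metric Set
open scoped Real ComplexConjugate

/-!
# Project CK: certificates with an excess `ex` (weight `y^(κ - 2 + ex)`, `τ = 1 + ex/(2κ)`)
-/

namespace Pool.Agent.Helper69.CK

open Pool.Agent.Helper39.Area Pool.Agent.Helper52.EK Pool.Agent.Helper52.CK
open Pool.Agent.Helper77.CK (KOneStmt tau_far' pt)

/-- the bound for one target with a larger constant -/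
theorem kOne_mono {κ dc dc' q : ℝ} {G M : ℂ → ℂ} (h : KOneStmt κ dc G M q) (hd : dc ≤ dc') :
    KOneStmt κ dc' G M q := by
  obtain ⟨e, C, V₀, a₀, he, hC, hV₀, ha₀, h⟩ := h
  obtain ⟨a₁, ha₁⟩ : ∃ a₁ : ℝ, a₁ = Real.exp (-Real.exp (-2)) := ⟨_, rfl⟩
  have h1 : a₁ < 1 := by
    rw [ha₁, Real.exp_lt_one_iff, neg_lt_zero]
    exact Real.exp_pos _
  refine ⟨e, C, V₀, max a₀ a₁, he, hC, hV₀, max_lt ha₀ h1, ?_⟩
  intro β R a V Ω Ω₁ Ω₂ hβ ha ha1 hV hVV hW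
  have h2 := h β R a V Ω Ω₁ Ω₂ hβ ((le_max_left _ _).trans_lt ha) ha1 hV hVV hW
  have h3 : a₁ < a := (le_max_right _ _).trans_lt ha
  have ha0 : 0 < a := by
    rw [ha₁] at h3
    exact (Real.exp_pos _).trans h3
  have h4 : Real.log (tau a) + 1 ≤ -1 := by
    have e1 : a = Real.exp (-(-Real.log a)) := by rw [neg_neg, Real.exp_log ha0]
    have h5 : 0 < -Real.log a := by
      rw [neg_pos]
      exact Real.log_neg ha0 ha1
    have h6 : -Real.log a ≤ Real.exp (-2) := by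
      have h7 := Real.log_le_log (by rw [ha₁]; exact Real.exp_pos _) h3.le
      rw [ha₁, Real.log_exp] at h7
      linarith
    have h8 := tau_far' h5 h6
    rwa [← e1] at h8
  have h5 : dc * (-1 - (Real.log (tau a) + 1)) ≤ dc' * (-1 - (Real.log (tau a) + 1)) :=
    mul_le_mul_of_nonneg_right hd (by linarith)
  linarith

/-- **from a certificate with excess to the class Σ** -/
theorem main_excess {κ ex Mb Lm ε₀ L dc : ℝ} (hκ : 1 ≤ κ) (hex : 0 ≤ ex) (hMb2 : Mb < 2 * κ)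
    (hdc : dc ≤ ex) {G M M' : ℂ → ℂ} (hG : GLip G L) (hM : MOk M M' Mb Lm ε₀) (hε₀ : 0 < ε₀)
    (hK : KOneStmt κ dc G M (1 + ex / (2 * κ))) :
    ∀ p : ℝ, κ ≤ p → ∀ e : ℝ, 0 < e → ∃ C : ℝ, ∀ ψ : ℂ → ℂ,
      DifferentiableOn ℂ ψ {z : ℂ | 1 < ‖z‖} → InjOn ψ {z : ℂ | 1 < ‖z‖} →
      (∃ b : ℂ, Filter.Tendsto (fun z => ψ z - z) (Bornology.cobounded ℂ) (nhds b)) →
      ∀ R : ℝ, 1 < R →
      (2 * π)⁻¹ * (∫ θ in (0:ℝ)..(2 * π), ‖deriv ψ (R * Complex.exp (θ * I))‖ ^ (-p)) ≤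
        C * (R ^ 2 / (R ^ 2 - 1)) ^ (p - 1 + ex + e) :=
  main_of_pt hκ hex ((norm_nonneg _).trans (hM.le 0)) hMb2 hG
    (fun β R h => Mh_cont hM h.toExt) (Mh_le hM)
    (pt (by linarith) hex hG hM hε₀ (kOne_mono hK hdc))

end Pool.Agent.Helper69.CK
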