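import Pool.Agent.Helper69.CK.BiebG
import Pool.Agent.Helper69.EK3.Disc
set_option autoImplicit false
open Complex MeasureTheory Metric Set
open scoped Real ComplexConjugate

/-!
# Project CK: the bounds of Koebe and Bieberbach with an error which vanishes on the sides
-/

namespace Pool.Agent.Helper69.CK

open Pool.Agent.Helper39.Area Pool.Agent.Helper52.EK Pool.Agent.Helper69.EK3

/-- the bounds of Koebe and Bieberbach with an integrable error times `sin η`, `0 ≤ η ≤ h` -/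
def DiscG (h : ℝ) (X : ℂ → ℂ) (x₁ x₂ : ℝ) : Prop :=
  ∃ δ : ℝ → ℝ, Continuous δ ∧ (∀ ξ, 0 ≤ δ ξ) ∧ (∀ ξ ∈ Icc x₁ x₂, δ ξ ≤ 8) ∧
    (∫ ξ in x₁..x₂, δ ξ ≤ 8) ∧ ∀ ξ ∈ Icc x₁ x₂, ∀ η ∈ Icc (0:ℝ) h,
      Real.sin η * ‖X (pt ξ η)‖ ≤ 1 + δ ξ * Real.sin η ∧
      ‖dA 1 (X (pt ξ η)) (deriv X (pt ξ η)) (Real.sin η) (Real.cos η)‖ ≤
        4 * (1 + δ ξ * Real.sin η) ∧
      ‖dA (-1) (X (pt ξ η)) (deriv X (pt ξ η)) (Real.sin η) (Real.cos η)‖ ≤
        4 * (1 + δ ξ * Real.sin η)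

theorem sin_nnh {h η : ℝ} (hh : h ≤ π) (hη : η ∈ Icc (0:ℝ) h) : 0 ≤ Real.sin η :=
  Real.sin_nonneg_of_nonneg_of_le_pi hη.1 (hη.2.trans hh)

theorem ds_le {d s : ℝ} (hd : 0 ≤ d) (_hs : 0 ≤ s) (hs1 : s ≤ 1) : d * s ≤ d := by
  nlinarith

theorem DiscG.X_le {h : ℝ} (hh : h ≤ π) {X : ℂ → ℂ} {x₁ x₂ : ℝ} (hD : DiscG h X x₁ x₂) :
    ∀ ξ ∈ Icc x₁ x₂, ∀ η ∈ Icc (0:ℝ) h, Real.sin η * ‖X (pt ξ η)‖ ≤ 9 := by
  obtain ⟨δ, _, h2, h3, _, h5⟩ := hD
  intro ξ hξ η hη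
  obtain ⟨k1, _, _⟩ := h5 ξ hξ η hη
  have := ds_le (h2 ξ) (sin_nnh hh hη) (Real.sin_le_one η)
  linarith [h3 ξ hξ]

theorem DiscG.q_le {h : ℝ} (hh : h ≤ π) {X : ℂ → ℂ} {x₁ x₂ : ℝ} (hD : DiscG h X x₁ x₂) :
    ∀ ξ ∈ Icc x₁ x₂, ∀ η ∈ Icc (0:ℝ) h,
      Real.sin η * ‖deriv X (pt ξ η) / X (pt ξ η)‖ ≤ 38 := by
  obtain ⟨δ, _, h2, h3, _, h5⟩ := hD
  intro ξ hξ η hη
  obtain ⟨k1, k2, _⟩ := h5 ξ hξ η hη
  have := ds_le (h2 ξ) (sin_nnh hh hη) (Real.sin_le_one η)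
  have h8 := h3 ξ hξ
  exact sin_q_le (sin_nnh hh hη) h8 (k1.trans (by linarith)) (k2.trans (by linarith))

/-- the angular inequality -/
theorem ang_ineq {t s d : ℝ} (ht : 0 ≤ t) (ht1 : t ≤ 1 / 2) (hs : 0 ≤ s) (hs1 : s ≤ 1)
    (hd : 8 * t * s ≤ d) :
    1 + t ^ 2 + 2 * t * s ≤ (1 + d) ^ 2 * (1 + t ^ 2 - 2 * t * s) := by
  have h0 : 0 ≤ t * s := mul_nonneg ht hs
  have h1 : t * s ≤ t := by nlinarith
  have h2 : 1 / 4 ≤ 1 + t ^ 2 - 2 * t * s := by nlinarith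
  have h3 : 1 + 16 * (t * s) ≤ (1 + d) ^ 2 := by nlinarith
  have h4 : (1 + 16 * (t * s)) * (1 + t ^ 2 - 2 * t * s) ≤ (1 + d) ^ 2 * (1 + t ^ 2 - 2 * t * s) :=
    mul_le_mul_of_nonneg_right h3 (by linarith)
  nlinarith

/-- the bounds for `Xf`, on the whole strip -/
theorem disc_Xf_g {β : ℂ → ℂ} {R a : ℝ} (h : ExtR β R) (ha : 0 < a) (ha1 : a < 1) {ξ η : ℝ}
    (h1 : Real.log (tau a) + 1 ≤ ξ) (h2 : ξ ≤ -1) (h3 : 0 ≤ η) (h4 : η ≤ π) :
    Real.sin η * ‖Xf β a (pt ξ η)‖ ≤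
      1 + (8 * Real.exp ξ + 8 * Real.exp (Real.log (tau a) - ξ)) * Real.sin η ∧
    ‖dA 1 (Xf β a (pt ξ η)) (deriv (Xf β a) (pt ξ η)) (Real.sin η) (Real.cos η)‖ ≤
      4 * (1 + (8 * Real.exp ξ + 8 * Real.exp (Real.log (tau a) - ξ)) * Real.sin η) ∧
    ‖dA (-1) (Xf β a (pt ξ η)) (deriv (Xf β a) (pt ξ η)) (Real.sin η) (Real.cos η)‖ ≤
      4 * (1 + (8 * Real.exp ξ + 8 * Real.exp (Real.log (tau a) - ξ)) * Real.sin η) := by
  have hy0 := Real.exp_pos ξ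
  have hq0 := Real.exp_pos (Real.log (tau a) - ξ)
  rcases eq_or_lt_of_le h3 with h5 | h5
  · subst h5
    have e : dA 1 (Xf β a (pt ξ 0)) (deriv (Xf β a) (pt ξ 0)) (Real.sin 0) (Real.cos 0) = 2 := by
      simp [dA, e0]
    have e' : dA (-1) (Xf β a (pt ξ 0)) (deriv (Xf β a) (pt ξ 0)) (Real.sin 0) (Real.cos 0) =
        2 := by
      simp [dA, e0]
    have e4 : ‖(2:ℂ)‖ = 2 := by simp
    rw [e, e', e4, Real.sin_zero, zero_mul]
    refine ⟨by linarith, by linarith, by linarith⟩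
  rcases eq_or_lt_of_le h4 with h6 | h6
  · subst h6
    have e : dA 1 (Xf β a (pt ξ π)) (deriv (Xf β a) (pt ξ π)) (Real.sin π) (Real.cos π) = 2 := by
      simp [dA, e0]
    have e' : dA (-1) (Xf β a (pt ξ π)) (deriv (Xf β a) (pt ξ π)) (Real.sin π) (Real.cos π) =
        2 := by
      simp [dA, e0]
    have e4 : ‖(2:ℂ)‖ = 2 := by simp
    rw [e, e', e4, Real.sin_pi, zero_mul]
    refine ⟨by linarith, by linarith, by linarith⟩
  have hτ : 0 < tau a := by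
    unfold tau
    have : 0 < 1 - a := by linarith
    positivity
  have hhalf : Real.exp (-1) ≤ 1 / 2 := by
    have h9 : Real.exp (-1) < 0.3678794412 := Real.exp_neg_one_lt_d9
    linarith
  have hy : Real.exp ξ ≤ 1 / 2 := (Real.exp_le_exp.mpr h2).trans hhalf
  have hq : Real.exp (Real.log (tau a) - ξ) ≤ 1 / 2 :=
    (Real.exp_le_exp.mpr (by linarith)).trans hhalf
  have hτe : tau a = Real.exp ξ * Real.exp (Real.log (tau a) - ξ) := by
    rw [← Real.exp_add, add_sub_cancel, Real.exp_log hτ]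
  have hs := Real.sin_pos_of_pos_of_lt_pi h5 h6
  have hs1 := Real.sin_le_one η
  obtain ⟨δ, hδ⟩ : ∃ δ, δ = (8 * Real.exp ξ + 8 * Real.exp (Real.log (tau a) - ξ)) *
    Real.sin η := ⟨_, rfl⟩
  have hδ0 : 0 < δ := by rw [hδ]; positivity
  have hr : 0 < (1 + δ)⁻¹ := by positivity
  have hr1 : (1 + δ)⁻¹ < 1 := inv_lt_one_of_one_lt₀ (by linarith)
  have hδ1 : 8 * Real.exp ξ * Real.sin η ≤ δ := by
    rw [hδ]
    nlinarith [mul_pos hq0 hs]
  have hδ2 : 8 * Real.exp (Real.log (tau a) - ξ) * Real.sin η ≤ δ := by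
    rw [hδ]
    nlinarith [mul_pos hy0 hs]
  have a1 := ang_ineq hy0.le hy hs.le hs1 hδ1
  have a2 := ang_ineq hq0.le hq hs.le hs1 hδ2
  have hk := bieb_strip_g h ha ha1 (ξ := ξ) (η := η) (by linarith) (by linarith) h5 h6 hr hr1
    (by
      rw [inv_pow, inv_mul_le_iff₀ (by positivity)]
      linarith)
    (by
      rw [inv_pow, inv_mul_le_iff₀ (by positivity)]
      have e1 : Real.exp ξ ^ 2 + tau a ^ 2 + 2 * Real.exp ξ * tau a * Real.sin η =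
          Real.exp ξ ^ 2 * (1 + Real.exp (Real.log (tau a) - ξ) ^ 2 +
            2 * Real.exp (Real.log (tau a) - ξ) * Real.sin η) := by
        generalize Real.exp (Real.log (tau a) - ξ) = t at *
        rw [hτe]
        ring
      have e2 : Real.exp ξ ^ 2 + tau a ^ 2 - 2 * Real.exp ξ * tau a * Real.sin η =
          Real.exp ξ ^ 2 * (1 + Real.exp (Real.log (tau a) - ξ) ^ 2 -
            2 * Real.exp (Real.log (tau a) - ξ) * Real.sin η) := by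
        generalize Real.exp (Real.log (tau a) - ξ) = t at *
        rw [hτe]
        ring
      rw [e1, e2]
      have := mul_le_mul_of_nonneg_left a2 (sq_nonneg (Real.exp ξ))
      linarith)
    rfl rfl
  obtain ⟨k1, k2, k3⟩ := hk
  rw [← hδ]
  have hp : 0 < 1 + δ := by linarith
  refine ⟨?_, ?_, ?_⟩
  · rwa [← div_eq_mul_inv, div_le_iff₀ hp, one_mul] at k1
  · rw [← div_eq_mul_inv, div_le_iff₀ hp] at k2
    have e : dA 1 (Xf β a (pt ξ η)) (deriv (Xf β a) (pt ξ η)) (Real.sin η) (Real.cos η) =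
        (1 + e0 (Real.sin η) (Real.cos η)) * (2 * Xf β a (pt ξ η) - 1 +
          deriv (Xf β a) (pt ξ η) / Xf β a (pt ξ η)) + 2 := by
      unfold dA
      push_cast
      ring
    rw [e]
    exact k2
  · rw [← div_eq_mul_inv, div_le_iff₀ hp] at k3
    have e : dA (-1) (Xf β a (pt ξ η)) (deriv (Xf β a) (pt ξ η)) (Real.sin η) (Real.cos η) =
        (1 + e0 (Real.sin η) (Real.cos η)) * (-2 * Xf β a (pt ξ η) - 1 +
          deriv (Xf β a) (pt ξ η) / Xf β a (pt ξ η)) + 2 := by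
      unfold dA
      push_cast
      ring
    rw [e]
    exact k3

theorem dG_cont (a : ℝ) :
    Continuous (fun ξ : ℝ => 8 * Real.exp ξ + 8 * Real.exp (Real.log (tau a) - ξ)) := by
  fun_prop

theorem dG_le8 (a : ℝ) : ∀ ξ ∈ Icc (Real.log (tau a) + 1) (-1),
    8 * Real.exp ξ + 8 * Real.exp (Real.log (tau a) - ξ) ≤ 8 := by
  intro ξ hξ
  have h9 : Real.exp (-1) < 0.3678794412 := Real.exp_neg_one_lt_d9
  have h1 : Real.exp ξ ≤ Real.exp (-1) := Real.exp_le_exp.2 hξ.2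
  have h2 : Real.exp (Real.log (tau a) - ξ) ≤ Real.exp (-1) :=
    Real.exp_le_exp.2 (by linarith [hξ.1])
  linarith

theorem dG_int (a : ℝ) : ∫ ξ in (Real.log (tau a) + 1)..(-1),
    (8 * Real.exp ξ + 8 * Real.exp (Real.log (tau a) - ξ)) ≤ 8 := by
  have i1 : IntervalIntegrable (fun ξ : ℝ => 8 * Real.exp ξ) volume
      (Real.log (tau a) + 1) (-1) :=
    (by fun_prop : Continuous fun ξ : ℝ => 8 * Real.exp ξ).intervalIntegrable _ _
  have i2 : IntervalIntegrable (fun ξ : ℝ => 8 * Real.exp (Real.log (tau a) - ξ)) volume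
      (Real.log (tau a) + 1) (-1) :=
    (by fun_prop : Continuous fun ξ : ℝ => 8 * Real.exp (Real.log (tau a) - ξ)).intervalIntegrable
      _ _
  rw [intervalIntegral.integral_add i1 i2, intervalIntegral.integral_const_mul,
    intervalIntegral.integral_const_mul,
    intervalIntegral.integral_comp_sub_left (fun u => Real.exp u) (Real.log (tau a)),
    integral_exp, integral_exp]
  have h9 : Real.exp (-1) < 0.3678794412 := Real.exp_neg_one_lt_d9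
  have e2 := Real.exp_pos (Real.log (tau a) + 1)
  have e3 : Real.exp (Real.log (tau a) - (Real.log (tau a) + 1)) = Real.exp (-1) := by
    congr 1
    ring
  have e4 := Real.exp_pos (Real.log (tau a) - -1)
  rw [e3]
  linarith

/-- `Xf` is in the class, on the full strip -/
theorem discG_Xf (β : ℂ → ℂ) (R a : ℝ) (h : ExtR β R) (ha : 0 < a) (ha1 : a < 1)
    (_hx : Real.log (tau a) + 1 ≤ -1) : DiscG π (Xf β a) (Real.log (tau a) + 1) (-1) :=
  ⟨_, dG_cont a, fun ξ => by positivity, dG_le8 a, dG_int a,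
    fun ξ hξ η hη => disc_Xf_g h ha ha1 hξ.1 hξ.2 hη.1 hη.2⟩

/-- `Xf` and its mirror image are in the class, on the half strip -/
theorem discG_Xf_half (β : ℂ → ℂ) (R a : ℝ) (h : ExtR β R) (ha : 0 < a) (ha1 : a < 1)
    (_hx : Real.log (tau a) + 1 ≤ -1) : DiscG (π / 2) (Xf β a) (Real.log (tau a) + 1) (-1) ∧
      DiscG (π / 2) (mir (Xf β a)) (Real.log (tau a) + 1) (-1) := by
  have hpi := Real.pi_pos
  refine ⟨⟨_, dG_cont a, fun ξ => by positivity, dG_le8 a, dG_int a,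
    fun ξ hξ η hη => disc_Xf_g h ha ha1 hξ.1 hξ.2 hη.1 (hη.2.trans (by linarith))⟩,
    ⟨_, dG_cont a, fun ξ => by positivity, dG_le8 a, dG_int a, ?_⟩⟩
  intro ξ hξ η hη
  have hX := Pool.Agent.Helper67.EK.E1c h ha ha1 (x₁ := Real.log (tau a) + 1) (x₂ := -1)
    (by linarith) (by norm_num)
  have hm : pt ξ (π - η) ∈ Rect (Real.log (tau a) + 1) (-1) := by
    have := mir_mem (pt_mem_RectH hξ hη)
    rwa [conj_pt] at this
  have hA : AnalyticAt ℂ (Xf β a) (pt ξ (π - η)) := hX.an _ hm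
  have hk := disc_Xf_g h ha ha1 hξ.1 hξ.2 (η := π - η) (by linarith [hη.2]) (by linarith [hη.1])
  rw [Real.sin_pi_sub, Real.cos_pi_sub] at hk
  rw [mir_pt, mir_deriv_pt hA.differentiableAt, dA_mir, dA_mir, Complex.norm_conj,
    Complex.norm_conj, Complex.norm_conj]
  exact hk

end Pool.Agent.Helper69.CK
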