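import Pool.Agent.Helper69.CK.Frame
set_option autoImplicit false
open Complex MeasureTheory Metric Set
open scoped Real ComplexConjugate

/-!
# Project CKC: the multiplier term in the strip and in the disc, complex constant
-/

namespace Pool.Agent.Helper69.CK

open Pool.Agent.Helper39.Area Pool.Agent.Helper52.EK Pool.Agent.Helper52.CK
open Pool.Agent.Helper70.EK (low norm_ph ph_sub_one err_le norm_e0)

/-- the term of the multiplier in the strip, complex constant -/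
noncomputable def MtC (M : ℂ → ℂ) (q : ℂ) (X : ℂ → ℂ) (ξ η : ℝ) : ℝ :=
  (M (mX (X (pt ξ η)) (deriv X (pt ξ η)) (Real.sin η) (Real.cos η)) *
    e0 (Real.sin η) (Real.cos η) * (X (pt ξ η) ^ 2 - q)).re

/-- `X² - q` in the coordinates of the disc -/
theorem X_sqC {β : ℂ → ℂ} {a : ℝ} {q : ℂ} {ω : ℂ} (h : I + Complex.exp ω ≠ 0) :
    Xf β a ω ^ 2 - q = zd ω ^ 2 * (kA β a (zf ω) - q * omp 0 (zf ω) ^ 2) := by
  have hzd : zd ω ≠ 0 := by
    unfold zd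
    refine div_ne_zero (mul_ne_zero (mul_ne_zero (by norm_num) Complex.I_ne_zero)
      (Complex.exp_ne_zero _)) (pow_ne_zero 2 (by rwa [add_comm]))
  have e1 : zd ω ^ 2 * omp 0 (zf ω) ^ 2 = 1 := by
    have e2 := zd_zf h
    have h1 : (1 - zf ω ^ 2) ≠ 0 := by
      intro h0
      rw [h0] at e2
      simp at e2
      exact hzd e2
    rw [omp_zero, e2]
    field_simp
  have e3 : Xf β a ω ^ 2 = zd ω ^ 2 * kA β a (zf ω) := by
    unfold Xf kA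
    ring
  rw [e3, mul_sub, ← mul_assoc, mul_comm (zd ω ^ 2) q, mul_assoc, e1, mul_one]

theorem norm_sq_subC (x q : ℂ) :
    ‖x ^ 2 - q‖ ≤ (2 + ‖1 - q‖) * (1 + ‖x - 1‖ ^ 2) := by
  have e : x ^ 2 - q = (x - 1) ^ 2 + 2 * (x - 1) + (1 - q) := by
    ring
  rw [e]
  refine (norm_add_le _ _).trans ((add_le_add (norm_add_le _ _) le_rfl).trans ?_)
  rw [norm_pow, norm_mul]
  have : ‖(2:ℂ)‖ = 2 := by simp
  rw [this]
  nlinarith [sq_nonneg (‖x - 1‖ - 1), norm_nonneg (1 - q), mul_nonneg (norm_nonneg (1 - q))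
    (sq_nonneg ‖x - 1‖)]

/-- the comparison of the integrands -/
theorem cmpC {M M' : ℂ → ℂ} {Mb L ε : ℝ} (hM : MOk M M' Mb L ε) (q : ℂ) {β : ℂ → ℂ} (h : Ext β)
    {a : ℝ} (ha : 0 < a) (ha1 : a < 1) {ξ η : ℝ} (h0 : 0 < η) (h1 : η < π)
    (hξ1 : Real.log (tau a) < ξ) (hξ : 8 * Real.exp ξ ≤ 1) (hε : 184 * Real.exp ξ ≤ ε) :
    |MtC M q (Xf β a) ξ η - ‖zd (pt ξ η)‖ ^ 2 * (Mh M' β (zf (pt ξ η)) *
      (kA β a (zf (pt ξ η)) - q * omp 0 (zf (pt ξ η)) ^ 2)).re| ≤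
      (164 * L + 8 * Mb) * (2 + ‖1 - q‖) * (Real.exp ξ * (1 + ‖Xf β a (pt ξ η) - 1‖ ^ 2)) := by
  have hx1 : ξ ≤ -1 := by
    by_contra h2
    push Not at h2
    have h3 : Real.exp (-1) < Real.exp ξ := Real.exp_lt_exp.2 h2
    have h4 : (0.36787944116:ℝ) < Real.exp (-1) := Real.exp_neg_one_gt_d9
    linarith
  have a1 := Pool.Agent.Helper97.EK.addI_ne (ξ := ξ) h0 h1
  obtain ⟨p, p1, p2, p3⟩ := phase h0 h1 hx1
  have k0 := Pool.Agent.Helper97.EK.zf_mem (ξ := ξ) h0 h1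
  rw [mem_ball_zero_iff] at k0
  -- the point is near the circle
  have hEn := Pool.Agent.Helper97.EK.norm_exp_pt ξ η
  have k1 : 1 - ‖zf (pt ξ η)‖ ≤ 4 * Real.exp ξ := by
    have e1 : 1 - zf (pt ξ η) = 2 * Complex.exp (pt ξ η) / (I + Complex.exp (pt ξ η)) := by
      unfold zf
      field_simp
      ring
    have h2 : ‖(1:ℂ)‖ - ‖zf (pt ξ η)‖ ≤ ‖1 - zf (pt ξ η)‖ := norm_sub_norm_le _ _
    rw [norm_one, e1, norm_div, norm_mul, hEn] at h2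
    have h3 := (low (Complex.exp (pt ξ η)) (by rw [hEn]; linarith)).1
    have : ‖(2:ℂ)‖ = 2 := by simp
    rw [this] at h2
    refine h2.trans ?_
    rw [div_le_iff₀ (by linarith)]
    nlinarith [Real.exp_pos ξ]
  have k2 : 1 / 2 ≤ ‖zf (pt ξ η)‖ := by linarith
  have k3 := mX_close h ha ha1 h0 h1 hx1 hξ1 k2
  have k4 := mrad_range h k0 k2
  have k5 : ‖mX (Xf β a (pt ξ η)) (deriv (Xf β a) (pt ξ η)) (Real.sin η) (Real.cos η) + 3‖ ≤
      4 + ε := by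
    have e1 : mX (Xf β a (pt ξ η)) (deriv (Xf β a) (pt ξ η)) (Real.sin η) (Real.cos η) + 3 =
        (mX (Xf β a (pt ξ η)) (deriv (Xf β a) (pt ξ η)) (Real.sin η) (Real.cos η) -
        mrad β (zf (pt ξ η))) + (mrad β (zf (pt ξ η)) + 3) := by ring
    rw [e1]
    refine (norm_add_le _ _).trans ?_
    linarith
  have k6 := hM.eq _ k5
  unfold MtC
  rw [k6, mul_assoc, X_sqC a1, ← mul_assoc (e0 (Real.sin η) (Real.cos η)), p2]
  have k7 : ‖(‖zd (pt ξ η)‖ : ℂ) ^ 2 * (kA β a (zf (pt ξ η)) - q * omp 0 (zf (pt ξ η)) ^ 2)‖ ≤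
      (2 + ‖1 - q‖) * (1 + ‖Xf β a (pt ξ η) - 1‖ ^ 2) := by
    have h2 := norm_sq_subC (Xf β a (pt ξ η)) q
    rw [X_sqC a1] at h2
    rw [norm_mul, norm_pow] at h2 ⊢
    rwa [Complex.norm_real, norm_norm]
  set K := kA β a (zf (pt ξ η)) - q * omp 0 (zf (pt ξ η)) ^ 2 with hK
  clear_value K
  have k8 := hM.lip (mX (Xf β a (pt ξ η)) (deriv (Xf β a) (pt ξ η)) (Real.sin η) (Real.cos η))
    (mrad β (zf (pt ξ η)))
  generalize mX (Xf β a (pt ξ η)) (deriv (Xf β a) (pt ξ η)) (Real.sin η) (Real.cos η) = m at *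
  have k9 := hM.le (mrad β (zf (pt ξ η)))
  unfold Mh
  generalize mrad β (zf (pt ξ η)) = m' at *
  have e1 : (M' m * ((‖zd (pt ξ η)‖ : ℂ) ^ 2 * p * K)).re -
      ‖zd (pt ξ η)‖ ^ 2 * ((zf (pt ξ η) / ‖zf (pt ξ η)‖) ^ 2 * M' m' * K).re =
      (((M' m - M' m') * p + M' m' * (p - (zf (pt ξ η) / ‖zf (pt ξ η)‖) ^ 2)) *
        ((‖zd (pt ξ η)‖ : ℂ) ^ 2 * K)).re := by
    have e2 : ‖zd (pt ξ η)‖ ^ 2 * ((zf (pt ξ η) / ‖zf (pt ξ η)‖) ^ 2 * M' m' * K).re =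
        (((‖zd (pt ξ η)‖ ^ 2 : ℝ) : ℂ) * ((zf (pt ξ η) / ‖zf (pt ξ η)‖) ^ 2 * M' m' * K)).re := by
      rw [Complex.re_ofReal_mul]
    rw [e2, ← Complex.sub_re]
    congr 1
    push_cast
    ring
  rw [e1]
  refine (abs_re_le_norm _).trans ?_
  rw [norm_mul]
  have hL := hM.L0
  have hMb := hM.Mb0
  have hexp := Real.exp_pos ξ
  have k10 : ‖(M' m - M' m') * p + M' m' * (p - (zf (pt ξ η) / ‖zf (pt ξ η)‖) ^ 2)‖ ≤
      (164 * L + 8 * Mb) * Real.exp ξ := by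
    refine (norm_add_le _ _).trans ?_
    rw [norm_mul, norm_mul, p1, mul_one]
    have b1 : ‖M' m - M' m'‖ ≤ L * (164 * Real.exp ξ) :=
      k8.trans (mul_le_mul_of_nonneg_left k3 hL)
    have b2 : ‖M' m'‖ * ‖p - (zf (pt ξ η) / ‖zf (pt ξ η)‖) ^ 2‖ ≤ Mb * (8 * Real.exp ξ) :=
      mul_le_mul k9 p3 (norm_nonneg _) hMb
    linarith
  have k11 := mul_le_mul k10 k7 (norm_nonneg _) (by positivity)
  refine k11.trans (le_of_eq ?_)
  ring

end Pool.Agent.Helper69.CK
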