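import Pool.Agent.Helper97.EK.E3a
import Pool.Agent.Helper84.EK.Koebe
set_option autoImplicit false
open Complex MeasureTheory Metric Set
open scoped Real ComplexConjugate

/-!
# Project CK: the range of `mrad`
-/

namespace Pool.Agent.Helper69.CK

open Pool.Agent.Helper39.Area Pool.Agent.Helper52.EK Pool.Agent.Helper97.EK
open Pool.Agent.Helper22.Marshall (coeff)

variable {β : ℂ → ℂ}

/-- the pre-Schwarzian derivative: `Q = 2 z (1 - ‖z‖) (N'/N - 2/z)`, `‖Q - 2 (2‖z‖ - 1)‖ ≤ 4` -/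
theorem preS_le (h : Ext β) {z : ℂ} (h1 : ‖z‖ < 1) (h2 : 1 / 2 ≤ ‖z‖) :
    ‖2 * z * (1 - ‖z‖) * (deriv (N β) z / N β z - 2 / z) - 2 * (2 * ‖z‖ - 1)‖ ≤ 4 := by
  obtain ⟨t, ht⟩ : ∃ t : ℝ, t = ‖z‖ := ⟨_, rfl⟩
  rw [← ht] at h1 h2 ⊢
  have hz : z ∈ ball (0:ℂ) 1 := by rwa [mem_ball_zero_iff, ← ht]
  have hz0 : z ≠ 0 := by
    rw [← norm_pos_iff, ← ht]
    linarith
  have hw1 : (2 * t - 1) < 1 := by linarith
  have hw0 : 0 ≤ 2 * t - 1 := by linarith
  obtain ⟨w, hw⟩ : ∃ w : ℂ, w = 2 * t - 1 := ⟨_, rfl⟩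
  rw [← hw]
  have hwr : w = ((2 * t - 1 : ℝ) : ℂ) := by rw [hw]; push_cast; ring
  have hwn : ‖w‖ = 2 * t - 1 := by rw [hwr, Complex.norm_real, Real.norm_of_nonneg hw0]
  -- the Moebius map
  have hd : ∀ v ∈ ball (0:ℂ) 1, 1 + w * v ≠ 0 := by
    intro v hv h0
    rw [mem_ball_zero_iff] at hv
    have h3 : ‖w * v‖ = 1 := by
      have h4 : w * v = -1 := by linear_combination h0
      rw [h4]
      simp
    rw [norm_mul, hwn] at h3
    nlinarith [norm_nonneg v]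
  have hmb : ∀ v ∈ ball (0:ℂ) 1, z * (1 + v) / (1 + w * v) ∈ ball (0:ℂ) 1 ∧
      z * (1 + v) / (1 + w * v) ≠ 0 := by
    intro v hv
    have hd0 := hd v hv
    rw [mem_ball_zero_iff] at hv ⊢
    have hn := norm_nonneg v
    have hv2 : ‖v‖ ^ 2 = v.re ^ 2 + v.im ^ 2 := by
      rw [← Complex.normSq_eq_norm_sq, Complex.normSq_apply]
      ring
    have hvr : v.re ≤ ‖v‖ := (le_abs_self _).trans (abs_re_le_norm v)
    constructor
    · rw [norm_div, norm_mul, ← ht, div_lt_one (norm_pos_iff.2 hd0)]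
      refine lt_of_pow_lt_pow_left₀ 2 (norm_nonneg _) ?_
      rw [mul_pow, ← Complex.normSq_eq_norm_sq, ← Complex.normSq_eq_norm_sq,
        Complex.normSq_apply, Complex.normSq_apply, hwr]
      simp only [add_re, add_im, one_re, one_im, zero_add, re_ofReal_mul, im_ofReal_mul]
      have h5 : 0 < (1 - t) * ((1 + t) - 2 * v.re * (1 - t) - ‖v‖ ^ 2 * (3 * t - 1)) := by
        refine mul_pos (by linarith) ?_
        have h6 : v.re * (1 - t) ≤ ‖v‖ * (1 - t) :=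
          mul_le_mul_of_nonneg_right hvr (by linarith)
        nlinarith [mul_nonneg hn (by linarith : 0 ≤ 1 - ‖v‖), mul_pos (by linarith : 0 < 1 - ‖v‖)
          (by linarith : 0 < 3 * t - 1)]
      rw [hv2] at h5
      nlinarith
    · refine div_ne_zero (mul_ne_zero hz0 fun h0 => ?_) hd0
      have h4 : v = -1 := by linear_combination h0
      rw [h4] at hv
      simp at hv
  have hN : ∀ w ∈ ball (0:ℂ) 1, w ≠ 0 → dphi β w ≠ 0 := by
    intro w hw hw0
    rw [dphi_eq hw0]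
    exact div_ne_zero (neg_ne_zero.2 (h.ne w hw)) (pow_ne_zero 2 hw0)
  have hD : dphi β z ≠ 0 := hN z hz hz0
  have hrc : (1 : ℂ) - t ≠ 0 := by
    have : ((1 - t : ℝ) : ℂ) ≠ 0 := by exact_mod_cast (by linarith : (1 - t : ℝ) ≠ 0)
    simpa using this
  have h2z : 2 * z * (1 - (t:ℂ)) ≠ 0 := mul_ne_zero (mul_ne_zero two_ne_zero hz0) hrc
  have hL : ∀ v ∈ ball (0:ℂ) 1, HasDerivAt (fun v : ℂ => z * (1 + v) / (1 + w * v))
      (2 * z * (1 - (t:ℂ)) / (1 + w * v) ^ 2) v := fun v hv => by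
    have a1 : HasDerivAt (fun v : ℂ => z * (1 + v)) (z * 1) v :=
      ((hasDerivAt_id v).const_add 1).const_mul z
    have a2 : HasDerivAt (fun v : ℂ => 1 + w * v) (w * 1) v :=
      ((hasDerivAt_id v).const_mul w).const_add 1
    refine (a1.div a2 (hd v hv)).congr_deriv ?_
    congr 1
    rw [hw]
    ring
  have hg : ∀ v ∈ ball (0:ℂ) 1, HasDerivAt
      (fun v => (phi β (z * (1 + v) / (1 + w * v)) - phi β z) / (2 * z * (1 - (t:ℂ)) * dphi β z))
      (dphi β (z * (1 + v) / (1 + w * v)) / (1 + w * v) ^ 2 / dphi β z) v := fun v hv => by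
    have a1 : HasDerivAt (fun v => phi β (z * (1 + v) / (1 + w * v)))
        (dphi β (z * (1 + v) / (1 + w * v)) * (2 * z * (1 - (t:ℂ)) / (1 + w * v) ^ 2)) v :=
      HasDerivAt.comp (h₂ := phi β) v (hasDerivAt_phi h.diff (hmb v hv).1 (hmb v hv).2) (hL v hv)
    refine ((a1.sub_const _).div_const _).congr_deriv ?_
    have := hd v hv
    field_simp
  have h0b : (0:ℂ) ∈ ball (0:ℂ) 1 := mem_ball_self one_pos
  have e1 : z * (1 + 0) / (1 + w * 0) = z := by simp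
  have k1 := Pool.Agent.Helper84.EK.second_le_two
    (f := fun v => (phi β (z * (1 + v) / (1 + w * v)) - phi β z) /
      (2 * z * (1 - (t:ℂ)) * dphi β z))
    (fun v hv => (hg v hv).differentiableAt.differentiableWithinAt)
    (by
      intro v hv v' hv' he
      change (phi β (z * (1 + v) / (1 + w * v)) - phi β z) / (2 * z * (1 - (t:ℂ)) * dphi β z) =
        (phi β (z * (1 + v') / (1 + w * v')) - phi β z) / (2 * z * (1 - (t:ℂ)) * dphi β z) at he
      rw [div_left_inj' (mul_ne_zero h2z hD), sub_left_inj] at he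
      have h3 := h.inj _ _ (hmb v hv).1 (hmb v' hv').1 (hmb v hv).2 (hmb v' hv').2 he
      rw [div_eq_div_iff (hd v hv) (hd v' hv')] at h3
      have h4 : 2 * z * (1 - (t:ℂ)) * (v - v') = 0 := by
        rw [hw] at h3
        linear_combination h3
      exact sub_eq_zero.1 ((mul_eq_zero.1 h4).resolve_left h2z))
    (by
      change (phi β (z * (1 + 0) / (1 + w * 0)) - phi β z) / (2 * z * (1 - (t:ℂ)) * dphi β z) = 0
      rw [e1]
      simp)
    (by
      rw [(hg 0 h0b).deriv, e1]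
      simp [hD])
  have k2 : iteratedDeriv 2 (fun v => (phi β (z * (1 + v) / (1 + w * v)) - phi β z) /
      (2 * z * (1 - (t:ℂ)) * dphi β z)) 0 =
      2 * z * (1 - (t:ℂ)) * (deriv (N β) z / N β z - 2 / z) - 2 * w := by
    rw [iteratedDeriv_succ, iteratedDeriv_one]
    have h3 : deriv (fun v => (phi β (z * (1 + v) / (1 + w * v)) - phi β z) /
        (2 * z * (1 - (t:ℂ)) * dphi β z))
        =ᶠ[nhds 0] fun v => dphi β (z * (1 + v) / (1 + w * v)) / (1 + w * v) ^ 2 / dphi β z := by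
      filter_upwards [isOpen_ball.mem_nhds h0b] with v hv
      exact (hg v hv).deriv
    rw [h3.deriv_eq]
    have h4 : HasDerivAt (dphi β) (dphi β z * (deriv (N β) z / N β z - 2 / z))
        (z * (1 + 0) / (1 + w * 0)) := by
      rw [e1]
      exact hasDerivAt_dphi h hz hz0
    have h5 : HasDerivAt (fun v => dphi β (z * (1 + v) / (1 + w * v)))
        (dphi β z * (deriv (N β) z / N β z - 2 / z) * (2 * z * (1 - (t:ℂ)) / (1 + w * 0) ^ 2))
        0 :=
      HasDerivAt.comp (h₂ := dphi β) (0:ℂ) h4 (hL 0 h0b)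
    have h6 : HasDerivAt (fun v : ℂ => (1 + w * v) ^ 2)
        (((2:ℕ):ℂ) * (1 + w * 0) ^ (2 - 1) * (w * 1)) 0 :=
      (((hasDerivAt_id (0:ℂ)).const_mul w).const_add 1).pow 2
    have h7 := ((h5.div h6 (pow_ne_zero 2 (hd 0 h0b))).div_const (dphi β z)).deriv
    change deriv (fun v => dphi β (z * (1 + v) / (1 + w * v)) / (1 + w * v) ^ 2 / dphi β z) 0 = _
      at h7
    rw [h7, e1]
    generalize deriv (N β) z / N β z - 2 / z = q
    simp only [mul_zero, add_zero, one_pow, div_one, mul_one]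
    push_cast
    field_simp
  unfold coeff at k1
  rw [k2, norm_mul] at k1
  have h5 : ‖((Nat.factorial 2 : ℕ) : ℂ)⁻¹‖ = 1 / 2 := by simp [Nat.factorial]
  rw [h5] at k1
  linarith

/-- **the range of `mrad`** -/
theorem mrad_range (h : Ext β) {z : ℂ} (h1 : ‖z‖ < 1) (h2 : 1 / 2 ≤ ‖z‖) :
    ‖mrad β z + 3‖ ≤ 4 + 5 * (1 - ‖z‖) := by
  have k1 := preS_le h h1 h2
  have hz1 : 0 < ‖z‖ := by linarith
  have hz0 : z ≠ 0 := norm_pos_iff.1 hz1
  have hc : conj z = (‖z‖ : ℂ) ^ 2 / z := by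
    rw [eq_div_iff hz0, mul_comm, Complex.mul_conj']
  have e : mrad β z + 3 = -((((1 + ‖z‖) / (2 * ‖z‖) : ℝ)) : ℂ) *
      (2 * z * (1 - ‖z‖) * (deriv (N β) z / N β z - 2 / z) - 2 * (2 * ‖z‖ - 1)) +
      -((((1 - ‖z‖) ^ 2 / ‖z‖ : ℝ)) : ℂ) := by
    unfold mrad
    generalize deriv (N β) z / N β z = D
    rw [hc]
    obtain ⟨t, ht⟩ : ∃ t : ℝ, t = ‖z‖ := ⟨_, rfl⟩
    rw [← ht]
    have ht0 : (t:ℂ) ≠ 0 := by
      rw [ht]
      exact_mod_cast hz1.ne'
    push_cast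
    field_simp
    ring
  rw [e]
  refine (norm_add_le _ _).trans ?_
  rw [norm_mul, norm_neg, norm_neg, Complex.norm_real, Complex.norm_real,
    Real.norm_of_nonneg (by positivity), Real.norm_of_nonneg (by positivity)]
  have h3 : (1 + ‖z‖) / (2 * ‖z‖) * ‖2 * z * (1 - ‖z‖) * (deriv (N β) z / N β z - 2 / z) -
      2 * (2 * ‖z‖ - 1)‖ ≤ (1 + ‖z‖) / (2 * ‖z‖) * 4 :=
    mul_le_mul_of_nonneg_left k1 (by positivity)
  refine (add_le_add h3 le_rfl).trans ?_
  rw [div_mul_eq_mul_div, div_add_div _ _ (by positivity) (by positivity),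
    div_le_iff₀ (by positivity)]
  nlinarith [mul_nonneg (by linarith : 0 ≤ 1 - ‖z‖) (by linarith : 0 ≤ 2 * ‖z‖ - 1),
    mul_pos hz1 hz1, mul_nonneg (mul_nonneg (by linarith : 0 ≤ 1 - ‖z‖)
      (by linarith : 0 ≤ 2 * ‖z‖ - 1)) hz1.le]

end Pool.Agent.Helper69.CK
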